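import Mathlib

/-!
# Terms `log V_n = n ℓ + e_n`, `e_n` of the size `ρ ^ n`: the case analysis
-/

set_option autoImplicit false

namespace Pool.Agent.K4H73.LU

/-- the size conditions: all indices are at most `m`, and `ρ ^ r` is small compared with `1 / m` -/
structure Sz (ρ ℓ m : ℝ) (r : ℕ) : Prop where
  ρ0 : 0 < ρ
  ρ1 : ρ < 1
  ℓ0 : 0 < ℓ
  m1 : 1 ≤ m
  r1 : 1 ≤ r
  s1 : 100 * m * ρ ^ r ≤ 1 - ρ
  s2 : 100 * m * ρ ^ r ≤ (1 - ρ) * ℓ
  s3 : 100 * m * ρ ^ r ≤ ℓ ^ 2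

/-- the bounds for the deviations -/
def Dv (ρ : ℝ) (e : ℕ → ℝ) (r : ℕ) : Prop :=
  ∀ n, r ≤ n → |e n| ≤ ρ ^ n * (1 + 2 * ρ ^ n) ∧ ρ ^ n * (1 - 2 * ρ ^ n) ≤ |e n|

section
variable {ρ ℓ m : ℝ} {r : ℕ} {e : ℕ → ℝ}

lemma Sz.x0 (S : Sz ρ ℓ m r) : 0 < ρ ^ r := pow_pos S.ρ0 r

lemma Sz.x1 (S : Sz ρ ℓ m r) : ρ ^ r ≤ 1 / 100 := by
  have h1 := S.s1
  have h2 := S.ρ0
  have h3 := S.m1
  have h4 := S.x0
  nlinarith

lemma Sz.anti (S : Sz ρ ℓ m r) {a b : ℕ} (h : a ≤ b) : ρ ^ b ≤ ρ ^ a :=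
  pow_le_pow_of_le_one S.ρ0.le S.ρ1.le h

/-- upper bound in terms of `ρ ^ n` -/
lemma Dv.up (D : Dv ρ e r) (S : Sz ρ ℓ m r) {n : ℕ} (hn : r ≤ n) :
    |e n| ≤ ρ ^ n * (1 + 2 * ρ ^ r) := by
  refine (D n hn).1.trans ?_
  have h1 := S.anti hn
  have h2 : 0 < ρ ^ n := pow_pos S.ρ0 n
  gcongr

lemma Dv.lo (D : Dv ρ e r) (S : Sz ρ ℓ m r) {n : ℕ} (hn : r ≤ n) :
    ρ ^ n * (1 - 2 * ρ ^ r) ≤ |e n| := by
  refine le_trans ?_ (D n hn).2
  have h1 := S.anti hn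
  have h2 : 0 < ρ ^ n := pow_pos S.ρ0 n
  gcongr

lemma Dv.up2 (D : Dv ρ e r) (S : Sz ρ ℓ m r) {n : ℕ} (hn : r ≤ n) : |e n| ≤ 2 * ρ ^ n := by
  have h1 := D.up S hn
  have h2 : 0 < ρ ^ n := pow_pos S.ρ0 n
  have h3 := S.x1
  nlinarith

/-- if `n ≥ k + s`, then `|e n| ≤ 2 ρ ^ k ρ ^ s` -/
lemma Dv.far (D : Dv ρ e r) (S : Sz ρ ℓ m r) {n k s : ℕ} (hn : r ≤ n) (h : k + s ≤ n) :
    |e n| ≤ 2 * (ρ ^ k * ρ ^ s) := by
  have h1 := D.up2 S hn
  have h2 := S.anti h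
  rw [pow_add] at h2
  linarith

/-- two comparable terms -/
lemma two_terms (D : Dv ρ e r) (S : Sz ρ ℓ m r) {a b : ℕ} {x y : ℝ} (ha : r ≤ a) (hab : a < b)
    (hy : 0 ≤ y) (hxy : y ≤ x) :
    x * ρ ^ a * ((1 - ρ) - 4 * ρ ^ r) ≤ x * |e a| - y * |e b| := by
  have h1 := D.lo S ha
  have h2 := D.up S (n := b) (by omega)
  have h3 : ρ ^ b ≤ ρ ^ a * ρ := by
    rw [← pow_succ]; exact S.anti (by omega)
  have hw : 0 < ρ ^ a := pow_pos S.ρ0 a
  have hx : 0 ≤ x := hy.trans hxy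
  have hr := S.x0
  have hρ := S.ρ0
  have hρ1 := S.ρ1
  have h4 : y * |e b| ≤ x * (ρ ^ a * ρ * (1 + 2 * ρ ^ r)) := by
    apply mul_le_mul hxy _ (abs_nonneg _) hx
    exact h2.trans (mul_le_mul_of_nonneg_right h3 (by linarith))
  have h5 : x * (ρ ^ a * (1 - 2 * ρ ^ r)) ≤ x * |e a| := mul_le_mul_of_nonneg_left h1 hx
  have h6 : x * ρ ^ a * ((1 - ρ) - 4 * ρ ^ r) ≤
      x * (ρ ^ a * (1 - 2 * ρ ^ r)) - x * (ρ ^ a * ρ * (1 + 2 * ρ ^ r)) := by
    have h7 : x * (ρ ^ a * (1 - 2 * ρ ^ r)) - x * (ρ ^ a * ρ * (1 + 2 * ρ ^ r)) -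
      x * ρ ^ a * ((1 - ρ) - 4 * ρ ^ r) = x * ρ ^ a * (2 * ρ ^ r * (1 - ρ)) := by ring
    have h8 : 0 ≤ x * ρ ^ a * (2 * ρ ^ r * (1 - ρ)) := by
      have : 0 ≤ 1 - ρ := by linarith
      positivity
    linarith
  linarith

/-- the numerical contradiction -/
lemma num (S : Sz ρ ℓ m r) {x w B : ℝ} (hw : 0 < w) (hx : 1 ≤ x)
    (hB : B ≤ 40 * m * (w * ρ ^ r))
    (h : ℓ * (x * w * ((1 - ρ) - 4 * ρ ^ r)) ≤ 5 * ℓ * m * (w * ρ ^ r) + B) : False := by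
  have s1 := S.s1
  have s2 := S.s2
  have hr := S.x0
  have hρ1 := S.ρ1
  have hℓ := S.ℓ0
  have hm := S.m1
  obtain ⟨y, hy⟩ : ∃ y, y = ρ ^ r := ⟨_, rfl⟩
  rw [← hy] at s1 s2 hr hB h
  have h1 : 4 * y ≤ (1 - ρ) / 25 := by nlinarith
  have h2 : (1 - ρ) * (24 / 25) ≤ (1 - ρ) - 4 * y := by linarith
  have h3 : w * ((1 - ρ) * (24 / 25)) ≤ x * w * ((1 - ρ) - 4 * y) := by
    have e1 : w ≤ x * w := le_mul_of_one_le_left hw.le hx
    have e2 : 0 ≤ (1 - ρ) * (24 / 25) := by nlinarith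
    exact mul_le_mul e1 h2 e2 (by positivity)
  have h4 : ℓ * (w * ((1 - ρ) * (24 / 25))) ≤ 5 * ℓ * m * (w * y) + 40 * m * (w * y) :=
    (mul_le_mul_of_nonneg_left h3 hℓ.le).trans (h.trans (by linarith))
  have h5 : w * (ℓ * ((1 - ρ) * (24 / 25))) ≤ w * (5 * ℓ * m * y + 40 * m * y) := by
    calc w * (ℓ * ((1 - ρ) * (24 / 25))) = ℓ * (w * ((1 - ρ) * (24 / 25))) := by ring
      _ ≤ _ := h4
      _ = _ := by ring
  have h6 : ℓ * ((1 - ρ) * (24 / 25)) ≤ 5 * ℓ * m * y + 40 * m * y :=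
    le_of_mul_le_mul_left h5 hw
  have h7 : ℓ * (100 * m * y) ≤ ℓ * (1 - ρ) := mul_le_mul_of_nonneg_left s1 hℓ.le
  have h8 : 0 < ℓ * (1 - ρ) := mul_pos hℓ (by linarith)
  nlinarith

/-- the equation of the deviations has no solution with `a` the least index and `c` far from it -/
lemma far (D : Dv ρ e r) (S : Sz ρ ℓ m r) {a b c d : ℕ} (ha : r ≤ a) (hab : a < b)
    (hac : a + r ≤ c) (hcd : c < d) (hbm : b ≤ m) (ham : a ≤ m)
    (hT : ℓ * (a * e d + d * e a - b * e c - c * e b) = -(e a * e d - e b * e c)) : False := by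
  have hw : 0 < ρ ^ a := pow_pos S.ρ0 a
  have hr := S.x0
  have hx1 := S.x1
  have hℓ := S.ℓ0
  have hm := S.m1
  have hcr : (c : ℝ) ≤ d := by exact_mod_cast hcd.le
  have hc1 : (1 : ℝ) ≤ c := by
    have := S.r1
    exact_mod_cast (by omega : 1 ≤ c)
  have t1 := two_terms D S ha hab (x := d) (y := c) (by linarith) hcr
  have t2 : |(b : ℝ) * e c| ≤ m * (2 * (ρ ^ a * ρ ^ r)) := by
    rw [abs_mul, Nat.abs_cast]
    exact mul_le_mul hbm (D.far S (by omega) hac) (abs_nonneg _) (by linarith)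
  have t3 : |(a : ℝ) * e d| ≤ m * (2 * (ρ ^ a * ρ ^ r)) := by
    rw [abs_mul, Nat.abs_cast]
    exact mul_le_mul ham (D.far S (by omega) (by omega)) (abs_nonneg _) (by linarith)
  have t4 : |e a * e d| ≤ 2 * (ρ ^ a * ρ ^ r) := by
    rw [abs_mul]
    have h1 := D.up2 S ha
    have h2 := D.far S (n := d) (k := a) (s := r) (by omega) (by omega)
    have h3 : |e a| ≤ 1 := h1.trans (by
      have := S.anti ha
      linarith)
    calc |e a| * |e d| ≤ 1 * (2 * (ρ ^ a * ρ ^ r)) := mul_le_mul h3 h2 (abs_nonneg _) (by norm_num)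
      _ = _ := by ring
  have t5 : |e b * e c| ≤ 2 * (ρ ^ a * ρ ^ r) := by
    rw [abs_mul]
    have h1 := D.up2 S (n := b) (by omega)
    have h2 := D.far S (n := c) (k := a) (s := r) (by omega) (by omega)
    have h3 : |e b| ≤ 1 := h1.trans (by
      have := S.anti (a := r) (b := b) (by omega)
      linarith)
    calc |e b| * |e c| ≤ 1 * (2 * (ρ ^ a * ρ ^ r)) := mul_le_mul h3 h2 (abs_nonneg _) (by norm_num)
      _ = _ := by ring
  have hd1 : (1 : ℝ) ≤ d := hc1.trans hcr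
  -- isolate
  have e1 : d * |e a| - c * |e b| ≤ |(d : ℝ) * e a - c * e b| := by
    have := abs_sub_abs_le_abs_sub ((d : ℝ) * e a) (c * e b)
    rw [abs_mul, abs_mul, Nat.abs_cast, Nat.abs_cast] at this
    exact this
  have e2 : ℓ * ((d : ℝ) * e a - c * e b) =
      ℓ * (b * e c - a * e d) - (e a * e d - e b * e c) := by linarith
  have e3 : ℓ * |(d : ℝ) * e a - c * e b| ≤ ℓ * (4 * m * (ρ ^ a * ρ ^ r)) + 4 * (ρ ^ a * ρ ^ r) := by
    have h1 : ℓ * |(d : ℝ) * e a - c * e b| = |ℓ * ((d : ℝ) * e a - c * e b)| := by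
      rw [abs_mul, abs_of_pos hℓ]
    rw [h1, e2]
    have h2 : |(b : ℝ) * e c - a * e d| ≤ 4 * m * (ρ ^ a * ρ ^ r) := by
      have := abs_sub ((b : ℝ) * e c) (a * e d)
      linarith
    have h3 := abs_sub (ℓ * ((b : ℝ) * e c - a * e d)) (e a * e d - e b * e c)
    have h4 := abs_sub (e a * e d) (e b * e c)
    rw [abs_mul ℓ, abs_of_pos hℓ] at h3
    have h5 := mul_le_mul_of_nonneg_left h2 hℓ.le
    linarith
  have e4 : ℓ * (d * ρ ^ a * ((1 - ρ) - 4 * ρ ^ r)) ≤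
      ℓ * (4 * m * (ρ ^ a * ρ ^ r)) + 4 * (ρ ^ a * ρ ^ r) :=
    (mul_le_mul_of_nonneg_left (t1.trans e1) hℓ.le).trans e3
  refine num S hw hd1 (B := 4 * (ρ ^ a * ρ ^ r)) ?_ ?_
  · have : 0 < ρ ^ a * ρ ^ r := mul_pos hw hr
    nlinarith
  · refine e4.trans ?_
    have : 0 < ρ ^ a * ρ ^ r := mul_pos hw hr
    have h1 : 0 ≤ ℓ * m * (ρ ^ a * ρ ^ r) := by positivity
    linarith

/-- four large terms, `a` the least index -/
lemma case_min (D : Dv ρ e r) (S : Sz ρ ℓ m r) {a b c d : ℕ} (ha : r ^ 2 ≤ a) (hab : a ≤ b)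
    (hac : a ≤ c) (had : a ≤ d) (hbm : b ≤ m) (hcm : c ≤ m) (hdm : d ≤ m)
    (heq : (a * ℓ + e a) * (d * ℓ + e d) = (b * ℓ + e b) * (c * ℓ + e c)) :
    (a = b ∧ c = d) ∨ (a = c ∧ b = d) := by
  have hr1 := S.r1
  have hra : r ≤ a := (Nat.le_self_pow (by norm_num) r).trans ha
  have hℓ := S.ℓ0
  have hm := S.m1
  have hr := S.x0
  have ham : (a : ℝ) ≤ m := by
    have : (a : ℝ) ≤ b := by exact_mod_cast hab
    linarith
  have up : ∀ n, r ≤ n → |e n| ≤ 2 * ρ ^ r := fun n hn => (D.up2 S hn).trans (by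
    have := S.anti hn
    linarith)
  have hprod : a * d = b * c := by
    by_contra hne
    have h1 : (1 : ℝ) ≤ |(a : ℝ) * d - b * c| := by
      have h2 : ((a * d : ℕ) : ℤ) - ((b * c : ℕ) : ℤ) ≠ 0 := by
        intro h
        apply hne
        exact_mod_cast sub_eq_zero.1 h
      have h3 := Int.one_le_abs h2
      have h4 : (1 : ℝ) ≤ |(((a * d : ℕ) : ℤ) : ℝ) - (((b * c : ℕ) : ℤ) : ℝ)| := by
        exact_mod_cast h3
      push_cast at h4
      exact h4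
    have h2 : ℓ ^ 2 * ((a : ℝ) * d - b * c) =
        -(ℓ * (a * e d + d * e a - b * e c - c * e b)) - (e a * e d - e b * e c) := by
      linarith
    have p1 : |(a : ℝ) * e d| ≤ m * (2 * ρ ^ r) := by
      rw [abs_mul, Nat.abs_cast]
      exact mul_le_mul ham (up d (by omega)) (abs_nonneg _) (by linarith)
    have p2 : |(d : ℝ) * e a| ≤ m * (2 * ρ ^ r) := by
      rw [abs_mul, Nat.abs_cast]
      exact mul_le_mul hdm (up a (by omega)) (abs_nonneg _) (by linarith)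
    have p3 : |(b : ℝ) * e c| ≤ m * (2 * ρ ^ r) := by
      rw [abs_mul, Nat.abs_cast]
      exact mul_le_mul hbm (up c (by omega)) (abs_nonneg _) (by linarith)
    have p4 : |(c : ℝ) * e b| ≤ m * (2 * ρ ^ r) := by
      rw [abs_mul, Nat.abs_cast]
      exact mul_le_mul hcm (up b (by omega)) (abs_nonneg _) (by linarith)
    have hx1 := S.x1
    have q : ∀ x y, r ≤ x → r ≤ y → |e x * e y| ≤ 2 * ρ ^ r := by
      intro x y hx hy
      rw [abs_mul]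
      calc |e x| * |e y| ≤ 1 * (2 * ρ ^ r) :=
            mul_le_mul ((up x hx).trans (by linarith)) (up y hy) (abs_nonneg _) (by norm_num)
        _ = _ := by ring
    have q1 := q a d (by omega) (by omega)
    have q2 := q b c (by omega) (by omega)
    have h3 : |ℓ ^ 2 * ((a : ℝ) * d - b * c)| ≤ ℓ * (8 * m * ρ ^ r) + 4 * ρ ^ r := by
      rw [h2]
      have g1 : |(a : ℝ) * e d + d * e a - b * e c - c * e b| ≤ 8 * m * ρ ^ r := by
        have a1 := abs_add_le ((a : ℝ) * e d) (d * e a)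
        have a2 := abs_sub ((a : ℝ) * e d + d * e a) (b * e c)
        have a3 := abs_sub ((a : ℝ) * e d + d * e a - b * e c) (c * e b)
        linarith
      have g2 := abs_sub (-(ℓ * ((a : ℝ) * e d + d * e a - b * e c - c * e b)))
        (e a * e d - e b * e c)
      have g3 := abs_sub (e a * e d) (e b * e c)
      rw [abs_neg, abs_mul ℓ, abs_of_pos hℓ] at g2
      have g4 := mul_le_mul_of_nonneg_left g1 hℓ.le
      linarith
    rw [abs_mul, abs_of_nonneg (sq_nonneg ℓ)] at h3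
    have h4 : ℓ ^ 2 ≤ ℓ ^ 2 * |(a : ℝ) * d - b * c| := le_mul_of_one_le_right (sq_nonneg ℓ) h1
    have s2 := S.s2
    have s3 := S.s3
    have hρ0 := S.ρ0
    have k1 : 100 * m * ρ ^ r ≤ ℓ := by nlinarith
    have k2 : ℓ * (100 * m * ρ ^ r) ≤ ℓ * ℓ := mul_le_mul_of_nonneg_left k1 hℓ.le
    have k3 : 0 < ℓ * (m * ρ ^ r) := by positivity
    have k4 : ρ ^ r ≤ m * ρ ^ r := le_mul_of_one_le_left hr.le hm
    nlinarith
  rcases Nat.eq_or_lt_of_le hab with h1 | h1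
  · left
    refine ⟨h1, ?_⟩
    subst h1
    exact (Nat.eq_of_mul_eq_mul_left (by omega : 0 < a) hprod).symm
  rcases Nat.eq_or_lt_of_le hac with h2 | h2
  · right
    refine ⟨h2, ?_⟩
    subst h2
    have : a * d = a * b := by rw [hprod]; ring
    exact (Nat.eq_of_mul_eq_mul_left (by omega : 0 < a) this).symm
  exfalso
  have hcd : c < d := by
    by_contra hle
    push Not at hle
    have h3 : a * d ≤ a * c := Nat.mul_le_mul_left _ hle
    have h4 : a * c < b * c := Nat.mul_lt_mul_of_pos_right h1 (by omega)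
    omega
  have hbd : b < d := by
    by_contra hle
    push Not at hle
    have h3 : a * d ≤ a * b := Nat.mul_le_mul_left _ hle
    have h4 : b * a < b * c := Nat.mul_lt_mul_of_pos_left h2 (by omega)
    rw [Nat.mul_comm b a] at h4
    omega
  have hpr : (a : ℝ) * d = b * c := by exact_mod_cast hprod
  have hT : ℓ * (a * e d + d * e a - b * e c - c * e b) = -(e a * e d - e b * e c) := by
    have : (a * ℓ + e a) * (d * ℓ + e d) - (b * ℓ + e b) * (c * ℓ + e c) =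
      ℓ ^ 2 * (a * d - b * c) + ℓ * (a * e d + d * e a - b * e c - c * e b) +
        (e a * e d - e b * e c) := by ring
    rw [heq, sub_self, hpr, sub_self, mul_zero] at this
    linarith
  have hT' : ℓ * (a * e d + d * e a - c * e b - b * e c) = -(e a * e d - e c * e b) := by
    rw [mul_comm (e c) (e b)]
    rw [← hT]; ring
  obtain ⟨β, hβ⟩ : ∃ β, b = a + β := ⟨b - a, by omega⟩
  obtain ⟨γ, hγ⟩ : ∃ γ, c = a + γ := ⟨c - a, by omega⟩
  have hdvd : a ∣ β * γ := by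
    have h3 : a * d = a * (a + β + γ) + β * γ := by rw [hprod, hβ, hγ]; ring
    exact (Nat.dvd_add_right (Dvd.intro _ rfl)).1 (h3 ▸ Dvd.intro _ rfl)
  have hle : r * r ≤ β * γ := by
    have h4 : a ≤ β * γ := Nat.le_of_dvd (Nat.mul_pos (by omega) (by omega)) hdvd
    rw [pow_two] at ha
    omega
  rcases le_or_gt r γ with h3 | h3
  · exact far D S hra h1 (by omega) hcd hbm ham hT
  · have h4 : r ≤ β := by
      by_contra h5
      push Not at h5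
      have : β * γ < r * r := Nat.mul_lt_mul'' h5 h3
      omega
    exact far D S hra h2 (by omega) hbd hcm ham hT'

theorem case0 (D : Dv ρ e r) (S : Sz ρ ℓ m r) {a b c d : ℕ} (ha : r ^ 2 ≤ a) (hb : r ^ 2 ≤ b)
    (hc : r ^ 2 ≤ c) (hd : r ^ 2 ≤ d) (ham : a ≤ m) (hbm : b ≤ m) (hcm : c ≤ m) (hdm : d ≤ m)
    (heq : (a * ℓ + e a) * (d * ℓ + e d) = (b * ℓ + e b) * (c * ℓ + e c)) :
    (a = b ∧ c = d) ∨ (a = c ∧ b = d) := by
  by_cases h1 : a ≤ b ∧ a ≤ c ∧ a ≤ d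
  · exact case_min D S ha h1.1 h1.2.1 h1.2.2 hbm hcm hdm heq
  by_cases h2 : b ≤ a ∧ b ≤ c ∧ b ≤ d
  · rcases case_min D S hb h2.1 h2.2.2 h2.2.1 ham hdm hcm heq.symm with h | h
    · exact Or.inl ⟨h.1.symm, h.2.symm⟩
    · exact Or.inr ⟨h.2, h.1⟩
  by_cases h3 : c ≤ a ∧ c ≤ b ∧ c ≤ d
  · rcases case_min D S hc h3.2.2 h3.1 h3.2.1 hdm ham hbm (by rw [mul_comm, ← heq, mul_comm]) with
      h | h
    · exact Or.inl ⟨h.2, h.1⟩
    · exact Or.inr ⟨h.1.symm, h.2.symm⟩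
  · have h4 : d ≤ a ∧ d ≤ b ∧ d ≤ c := by omega
    rcases case_min D S hd h4.2.2 h4.2.1 h4.1 hcm hbm ham (by rw [mul_comm, heq, mul_comm]) with
      h | h
    · exact Or.inl ⟨h.2.symm, h.1.symm⟩
    · exact Or.inr ⟨h.2.symm, h.1.symm⟩

end

end Pool.Agent.K4H73.LU
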