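import Mathlib
import Pool.Agent.K4H73.LU.Cases

/-!
# One or two small entries
-/

set_option autoImplicit false

namespace Pool.Agent.K4H73.LU

section
variable {ρ ℓ m : ℝ} {r : ℕ} {e : ℕ → ℝ}

/-- one small entry `x`, the indices `b ≤ c` of the neighbours, the resonant case -/
lemma res1 (D : Dv ρ e r) (S : Sz ρ ℓ m r) {b c d E : ℕ} {x Y : ℝ} (hx : 0 < x)
    (hxY : x ≤ Y) (hYm : Y ≤ m) (hrE : r ≤ E) (hYE : 2 * Y ≤ ℓ * E) (hbE : E ≤ b)
    (hbc : b ≤ c)
    (hres : d * x = b * c * ℓ)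
    (heq : x * (d * ℓ + e d) = (b * ℓ + e b) * (c * ℓ + e c)) : False := by
  have hℓ := S.ℓ0
  have hm := S.m1
  have hr := S.x0
  have hx1 := S.x1
  have hrb : r ≤ b := hrE.trans hbE
  have hw : 0 < ρ ^ b := pow_pos S.ρ0 b
  have hr1 := S.r1
  have hwr : 0 < ρ ^ b * ρ ^ r := mul_pos hw hr
  -- the size of `d`
  have hd : 2 * c ≤ d := by
    have h1 : (2 : ℝ) * c * x ≤ d * x := by
      rw [hres]
      have h2 : 2 * x ≤ b * ℓ := by
        have h3 : (E : ℝ) ≤ b := by exact_mod_cast hbE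
        have h4 : ℓ * E ≤ ℓ * b := mul_le_mul_of_nonneg_left h3 hℓ.le
        linarith
      have h3 : (0 : ℝ) ≤ c := Nat.cast_nonneg _
      nlinarith
    have h5 : (2 : ℝ) * c ≤ d := le_of_mul_le_mul_right h1 hx
    exact_mod_cast h5
  have hed : |e d| ≤ 2 * (ρ ^ b * ρ ^ r) := D.far S (by omega) (by omega)
  have hT : x * e d = ℓ * (b * e c + c * e b) + e b * e c := by
    have h1 : x * (d * ℓ + e d) = (d * x) * ℓ + x * e d := by ring
    rw [h1, hres] at heq
    linarith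
  have hbe : |e b * e c| ≤ 4 * (ρ ^ b * ρ ^ r) := by
    rw [abs_mul]
    have h1 : |e b| ≤ 2 * ρ ^ b := D.up2 S hrb
    have h2 : |e c| ≤ 2 * ρ ^ r := (D.up2 S (by omega)).trans (by
      have := S.anti (a := r) (b := c) (by omega)
      linarith)
    calc |e b| * |e c| ≤ (2 * ρ ^ b) * (2 * ρ ^ r) := mul_le_mul h1 h2 (abs_nonneg _) (by positivity)
      _ = 4 * (ρ ^ b * ρ ^ r) := by ring
  have hlow : c * ρ ^ b * ((1 - ρ) - 4 * ρ ^ r) ≤ |(b : ℝ) * e c + c * e b| := by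
    rcases Nat.eq_or_lt_of_le hbc with h | h
    · subst h
      have h1 : (b : ℝ) * e b + b * e b = 2 * (b * e b) := by ring
      rw [h1, abs_mul, abs_mul, Nat.abs_cast]
      have h2 := D.lo S hrb
      have hb0 : (0 : ℝ) ≤ b := Nat.cast_nonneg _
      have h3 : (b : ℝ) * (ρ ^ b * (1 - 2 * ρ ^ r)) ≤ b * |e b| := mul_le_mul_of_nonneg_left h2 hb0
      have h4 : (b : ℝ) * ρ ^ b * ((1 - ρ) - 4 * ρ ^ r) ≤ b * (ρ ^ b * (1 - 2 * ρ ^ r)) := by
        have h5 : (0 : ℝ) ≤ b * ρ ^ b := by positivity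
        have h6 : (1 - ρ) - 4 * ρ ^ r ≤ 1 - 2 * ρ ^ r := by
          have := S.ρ0
          linarith
        calc (b : ℝ) * ρ ^ b * ((1 - ρ) - 4 * ρ ^ r) ≤ b * ρ ^ b * (1 - 2 * ρ ^ r) :=
              mul_le_mul_of_nonneg_left h6 h5
          _ = _ := by ring
      have h7 : 0 ≤ (b : ℝ) * |e b| := by positivity
      have h8 : |(2 : ℝ)| = 2 := abs_of_pos (by norm_num)
      rw [h8]
      linarith
    · have h1 := two_terms D S hrb h (x := c) (y := b) (Nat.cast_nonneg _)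
        (by exact_mod_cast h.le)
      have h2 := abs_sub_abs_le_abs_add ((c : ℝ) * e b) (b * e c)
      rw [abs_mul, abs_mul, Nat.abs_cast, Nat.abs_cast] at h2
      rw [add_comm ((b : ℝ) * e c)]
      linarith
  have hc1 : (1 : ℝ) ≤ c := by exact_mod_cast (by omega : 1 ≤ c)
  refine num S hw hc1 (B := 6 * m * (ρ ^ b * ρ ^ r)) ?_ ?_
  · have : 0 ≤ m * (ρ ^ b * ρ ^ r) := by positivity
    linarith
  · have h1 : ℓ * (c * ρ ^ b * ((1 - ρ) - 4 * ρ ^ r)) ≤ ℓ * |(b : ℝ) * e c + c * e b| :=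
      mul_le_mul_of_nonneg_left hlow hℓ.le
    have h2 : ℓ * |(b : ℝ) * e c + c * e b| = |x * e d - e b * e c| := by
      have : x * e d - e b * e c = ℓ * (b * e c + c * e b) := by linarith
      rw [this, abs_mul, abs_of_pos hℓ]
    have h3 := abs_sub (x * e d) (e b * e c)
    have h4 : |x * e d| ≤ m * (2 * (ρ ^ b * ρ ^ r)) := by
      rw [abs_mul, abs_of_pos hx]
      exact mul_le_mul (hxY.trans hYm) hed (abs_nonneg _) (by linarith)
    have h5 : 4 * (ρ ^ b * ρ ^ r) ≤ 4 * m * (ρ ^ b * ρ ^ r) := by nlinarith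
    have h6 : 0 ≤ 5 * ℓ * m * (ρ ^ b * ρ ^ r) := by positivity
    linarith

/-- one small entry -/
lemma case1 (D : Dv ρ e r) (S : Sz ρ ℓ m r) {b c d E : ℕ} {x Y η : ℝ} (hx : 0 < x)
    (hxY : x ≤ Y) (hYm : Y ≤ m) (hrE : r ≤ E) (hYE : 2 * Y ≤ ℓ * E) (hbE : E ≤ b) (hcE : E ≤ c)
    (hdE : E ≤ d) (hbm : b ≤ m) (hcm : c ≤ m)
    (hη : (2 * m + 4 * ℓ * m + 4) * ρ ^ E < ℓ * η)
    (hres : d * x = b * c * ℓ ∨ η ≤ |d * x - b * c * ℓ|)
    (heq : x * (d * ℓ + e d) = (b * ℓ + e b) * (c * ℓ + e c)) : False := by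
  have hℓ := S.ℓ0
  have hm := S.m1
  have hx1 := S.x1
  rcases hres with hres | hres
  · rcases le_total b c with h | h
    · exact res1 D S hx hxY hYm hrE hYE hbE h hres heq
    · exact res1 D S hx hxY hYm hrE hYE hcE h (by rw [hres]; ring) (by rw [heq]; ring)
  · have hwE : 0 < ρ ^ E := pow_pos S.ρ0 E
    have up : ∀ n, E ≤ n → |e n| ≤ 2 * ρ ^ E := fun n hn => (D.up2 S (by omega)).trans (by
      have := S.anti hn
      linarith)
    have h0 : ℓ * (d * x - b * c * ℓ) = ℓ * (b * e c + c * e b) + e b * e c - x * e d := by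
      linarith
    have h1 : |(b : ℝ) * e c + c * e b| ≤ 4 * m * ρ ^ E := by
      have a1 : |(b : ℝ) * e c| ≤ m * (2 * ρ ^ E) := by
        rw [abs_mul, Nat.abs_cast]
        exact mul_le_mul hbm (up c hcE) (abs_nonneg _) (by linarith)
      have a2 : |(c : ℝ) * e b| ≤ m * (2 * ρ ^ E) := by
        rw [abs_mul, Nat.abs_cast]
        exact mul_le_mul hcm (up b hbE) (abs_nonneg _) (by linarith)
      have a3 := abs_add_le ((b : ℝ) * e c) (c * e b)
      linarith
    have h2 : |e b * e c| ≤ 4 * ρ ^ E := by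
      rw [abs_mul]
      have b1 : |e b| ≤ 1 := (up b hbE).trans (by
        have := S.anti hrE
        linarith)
      calc |e b| * |e c| ≤ 1 * (2 * ρ ^ E) :=
            mul_le_mul b1 (up c hcE) (abs_nonneg _) (by norm_num)
        _ ≤ _ := by linarith
    have h3 : |x * e d| ≤ m * (2 * ρ ^ E) := by
      rw [abs_mul, abs_of_pos hx]
      exact mul_le_mul (hxY.trans hYm) (up d hdE) (abs_nonneg _) (by linarith)
    have h4 : ℓ * |(d : ℝ) * x - b * c * ℓ| ≤ ℓ * (4 * m * ρ ^ E) + 4 * ρ ^ E + m * (2 * ρ ^ E) := by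
      have : ℓ * |(d : ℝ) * x - b * c * ℓ| = |ℓ * (d * x - b * c * ℓ)| := by
        rw [abs_mul, abs_of_pos hℓ]
      rw [this, h0]
      have c1 := abs_sub (ℓ * ((b : ℝ) * e c + c * e b) + e b * e c) (x * e d)
      have c2 := abs_add_le (ℓ * ((b : ℝ) * e c + c * e b)) (e b * e c)
      rw [abs_mul ℓ, abs_of_pos hℓ] at c2
      have c3 := mul_le_mul_of_nonneg_left h1 hℓ.le
      linarith
    have h5 : ℓ * η ≤ ℓ * |(d : ℝ) * x - b * c * ℓ| := mul_le_mul_of_nonneg_left hres hℓ.le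
    linarith

/-- two small entries in a row -/
lemma case2_lt (D : Dv ρ e r) (S : Sz ρ ℓ m r) {c d : ℕ} {x y : ℝ} (hx : 0 < x)
    (hrc : r ≤ c) (hcd : c < d)
    (hres : d * x = c * y)
    (heq : x * (d * ℓ + e d) = y * (c * ℓ + e c)) : False := by
  have h1 : x * e d = y * e c := by
    have : x * (d * ℓ + e d) - y * (c * ℓ + e c) = ℓ * (d * x - c * y) + (x * e d - y * e c) := by
      ring
    rw [heq, hres] at this
    linarith
  have hr1 := S.r1
  have hxy : x ≤ y := by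
    by_contra hlt
    push Not at hlt
    have h2 : (c : ℝ) ≤ d := by exact_mod_cast hcd.le
    have h3 : (0 : ℝ) < c := by exact_mod_cast (by omega : 0 < c)
    have : (c : ℝ) * y < c * x := mul_lt_mul_of_pos_left hlt h3
    have : (c : ℝ) * x ≤ d * x := mul_le_mul_of_nonneg_right h2 hx.le
    linarith
  have h2 := two_terms D S hrc hcd (x := y) (y := x) hx.le hxy
  have h3 : y * |e c| = x * |e d| := by
    have := congrArg abs h1
    rw [abs_mul, abs_mul, abs_of_pos hx, abs_of_pos (lt_of_lt_of_le hx hxy)] at this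
    exact this.symm
  rw [h3, sub_self] at h2
  have h4 : 0 < y * ρ ^ c * ((1 - ρ) - 4 * ρ ^ r) := by
    have s1 := S.s1
    have := S.m1
    have := S.x0
    have h5 : 0 < (1 - ρ) - 4 * ρ ^ r := by nlinarith
    have h6 : 0 < ρ ^ c := pow_pos S.ρ0 c
    have h7 : 0 < y := lt_of_lt_of_le hx hxy
    positivity
  linarith

lemma case2 (D : Dv ρ e r) (S : Sz ρ ℓ m r) {c d E : ℕ} {x y Y η : ℝ} (hx : 0 < x) (hy : 0 < y)
    (hxY : x ≤ Y) (hyY : y ≤ Y) (hYm : Y ≤ m) (hrE : r ≤ E) (hcE : E ≤ c)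
    (hdE : E ≤ d)
    (hη' : 4 * m * ρ ^ E < ℓ * η)
    (hres : d * x = c * y ∨ η ≤ |d * x - c * y|)
    (heq : x * (d * ℓ + e d) = y * (c * ℓ + e c)) : x = y ∧ c = d := by
  have hℓ := S.ℓ0
  have hm := S.m1
  have hr1 := S.r1
  rcases hres with hres | hres
  · rcases lt_trichotomy c d with h | h | h
    · exact (case2_lt D S hx (by omega) h hres heq).elim
    · subst h
      refine ⟨?_, rfl⟩
      have h3 : (0 : ℝ) < c := by exact_mod_cast (by omega : 0 < c)
      exact mul_left_cancel₀ h3.ne' hres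
    · exact (case2_lt D S hy (by omega) h hres.symm heq.symm).elim
  · exfalso
    have up : ∀ n, E ≤ n → |e n| ≤ 2 * ρ ^ E := fun n hn => (D.up2 S (by omega)).trans (by
      have := S.anti hn
      linarith)
    have h0 : ℓ * (d * x - c * y) = y * e c - x * e d := by linarith
    have h1 : |y * e c| ≤ m * (2 * ρ ^ E) := by
      rw [abs_mul, abs_of_pos hy]
      exact mul_le_mul (hyY.trans hYm) (up c hcE) (abs_nonneg _) (by linarith)
    have h3 : |x * e d| ≤ m * (2 * ρ ^ E) := by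
      rw [abs_mul, abs_of_pos hx]
      exact mul_le_mul (hxY.trans hYm) (up d hdE) (abs_nonneg _) (by linarith)
    have h4 : ℓ * |(d : ℝ) * x - c * y| ≤ 4 * m * ρ ^ E := by
      have : ℓ * |(d : ℝ) * x - c * y| = |ℓ * (d * x - c * y)| := by
        rw [abs_mul, abs_of_pos hℓ]
      rw [this, h0]
      have c1 := abs_sub (y * e c) (x * e d)
      linarith
    have h5 : ℓ * η ≤ ℓ * |(d : ℝ) * x - c * y| := mul_le_mul_of_nonneg_left hres hℓ.le
    linarith

end

end Pool.Agent.K4H73.LU
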