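import Mathlib
import Pool.Agent.K4H73.LU.Core

/-!
# The lower bound for `|b log q - a log p|` over a ring with two real homomorphisms, all coefficients
-/

set_option autoImplicit false

namespace Pool.Agent.K4H73.LU

/-- `|exp x - 1| ≤ 2 |x|` for `|x| ≤ 1` -/
lemma exp_sub_one {x : ℝ} (hx : |x| ≤ 1) : |Real.exp x - 1| ≤ 2 * |x| := by
  have h := Real.abs_exp_sub_one_le hx
  exact h

theorem lfl_gen {R : Type*} [CommRing R] (σ σ' : R →+* ℝ)
    (hN : ∀ x : R, σ x ≠ 0 → 1 ≤ |σ x| * max 1 |σ' x|) (P Q : R)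
    (a b Y L : ℕ) (hp : 1 < σ P) (hq : 1 < σ Q) (ha : 1 ≤ a) (hb : 1 ≤ b)
    (hne : σ P ^ a ≠ σ Q ^ b) (hY : 1 ≤ Y) (hL1 : 1 ≤ L)
    (hpY : Real.log (σ P) ≤ Y) (hqY : Real.log (σ Q) ≤ Y)
    (hpY' : |σ' P| ≤ σ P) (hqY' : |σ' Q| ≤ σ Q)
    (hL : 16 * (1 + Real.log (290 * Y * L * (a + b))) ≤ L) :
    Real.exp (-(20880 * (Y:ℝ) ^ 2 * (L:ℝ) ^ 2)) < |b * Real.log (σ Q) - a * Real.log (σ P)| := by
  obtain ⟨g, a', b', hg, hcop, rfl, rfl⟩ := Nat.exists_coprime' (m := a) (n := b)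
    (Nat.gcd_pos_of_pos_left _ ha)
  have hg1 : (1:ℝ) ≤ g := by exact_mod_cast hg
  have ha' : 1 ≤ a' := by
    rcases Nat.eq_zero_or_pos a' with h | h
    · simp [h] at ha
    · exact h
  have hb' : 1 ≤ b' := by
    rcases Nat.eq_zero_or_pos b' with h | h
    · simp [h] at hb
    · exact h
  have har : (1:ℝ) ≤ a' := by exact_mod_cast ha'
  have hbr : (1:ℝ) ≤ b' := by exact_mod_cast hb'
  have hYr : (1:ℝ) ≤ Y := by exact_mod_cast hY
  have hLr : (1:ℝ) ≤ L := by exact_mod_cast hL1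
  have hred : |b' * Real.log (σ Q) - a' * Real.log (σ P)| ≤
      |((b' * g : ℕ) : ℝ) * Real.log (σ Q) - ((a' * g : ℕ) : ℝ) * Real.log (σ P)| := by
    have : ((b' * g : ℕ) : ℝ) * Real.log (σ Q) - ((a' * g : ℕ) : ℝ) * Real.log (σ P)
        = g * (b' * Real.log (σ Q) - a' * Real.log (σ P)) := by push_cast; ring
    rw [this, abs_mul, Nat.abs_cast]
    exact le_mul_of_one_le_left (abs_nonneg _) hg1
  refine lt_of_lt_of_le ?_ hred
  have hL' : 16 * (1 + Real.log (290 * Y * L * (a' + b'))) ≤ L := by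
    refine le_trans ?_ hL
    have h1 : Real.log (290 * Y * L * (a' + b')) ≤
        Real.log (290 * Y * L * (((a' * g : ℕ) : ℝ) + ((b' * g : ℕ) : ℝ))) := by
      apply Real.log_le_log (by positivity)
      have h2 : (a' : ℝ) ≤ ((a' * g : ℕ) : ℝ) := by
        push_cast
        exact le_mul_of_one_le_right (by linarith) hg1
      have h3 : (b' : ℝ) ≤ ((b' * g : ℕ) : ℝ) := by
        push_cast
        exact le_mul_of_one_le_right (by linarith) hg1
      gcongr
    linarith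
  by_cases hcase : 145 * Y * L ≤ a'
  · exact lfl_core σ σ' hN P Q a' b' Y L hp hq ha' hb' hcop hY hL1 hpY hqY hpY' hqY' hcase hL'
  · rw [not_le] at hcase
    have hne' : σ P ^ a' ≠ σ Q ^ b' := by
      intro h
      apply hne
      rw [pow_mul, pow_mul, h]
    have hp0 : 0 < σ P := by linarith
    have hq0 : 0 < σ Q := by linarith
    set Λ : ℝ := b' * Real.log (σ Q) - a' * Real.log (σ P) with hΛ
    have hbig : (1:ℝ) ≤ Y ^ 2 * L ^ 2 :=
      one_le_mul_of_one_le_of_one_le (one_le_pow₀ hYr) (one_le_pow₀ hLr)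
    rcases le_or_gt |Λ| 1 with hΛ1 | hΛ1
    swap
    · refine lt_of_le_of_lt ?_ hΛ1
      rw [Real.exp_le_one_iff]
      nlinarith
    have hPe : σ P ^ a' = Real.exp (a' * Real.log (σ P)) := by
      rw [Real.exp_nat_mul, Real.exp_log hp0]
    have hQe : σ Q ^ b' = Real.exp (a' * Real.log (σ P)) * Real.exp Λ := by
      rw [← Real.exp_add, hΛ, add_sub_cancel, Real.exp_nat_mul, Real.exp_log hq0]
    have hx : σ (Q ^ b' - P ^ a') ≠ 0 := by
      rw [map_sub, map_pow, map_pow]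
      exact sub_ne_zero.mpr hne'.symm
    have h1 := hN _ hx
    have hA0 : (0:ℝ) ≤ a' * Real.log (σ P) := mul_nonneg (by linarith) (Real.log_pos hp).le
    have he1 : (1:ℝ) ≤ Real.exp (a' * Real.log (σ P)) := Real.one_le_exp hA0
    have heΛ : Real.exp Λ ≤ 3 := by
      have h2 : Real.exp Λ ≤ Real.exp 1 := Real.exp_le_exp.mpr ((le_abs_self _).trans hΛ1)
      have := Real.exp_one_lt_d9
      linarith
    have h2 : |σ (Q ^ b' - P ^ a')| ≤ Real.exp (a' * Real.log (σ P)) * (2 * |Λ|) := by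
      rw [map_sub, map_pow, map_pow, hPe, hQe]
      have : Real.exp (a' * Real.log (σ P)) * Real.exp Λ - Real.exp (a' * Real.log (σ P)) =
          Real.exp (a' * Real.log (σ P)) * (Real.exp Λ - 1) := by ring
      rw [this, abs_mul, abs_of_pos (Real.exp_pos _)]
      exact mul_le_mul_of_nonneg_left (exp_sub_one hΛ1) (Real.exp_pos _).le
    have h3 : max 1 |σ' (Q ^ b' - P ^ a')| ≤ 4 * Real.exp (a' * Real.log (σ P)) := by
      apply max_le (by linarith)
      rw [map_sub, map_pow, map_pow]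
      have e1 : |σ' Q ^ b'| ≤ Real.exp (a' * Real.log (σ P)) * 3 := by
        rw [abs_pow]
        refine (pow_le_pow_left₀ (abs_nonneg _) hqY' _).trans ?_
        rw [hQe]
        exact mul_le_mul_of_nonneg_left heΛ (Real.exp_pos _).le
      have e2 : |σ' P ^ a'| ≤ Real.exp (a' * Real.log (σ P)) := by
        rw [abs_pow]
        refine (pow_le_pow_left₀ (abs_nonneg _) hpY' _).trans ?_
        rw [hPe]
      have e3 := abs_sub (σ' Q ^ b') (σ' P ^ a')
      linarith
    have h4 : 1 ≤ (Real.exp (a' * Real.log (σ P)) * (2 * |Λ|)) *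
        (4 * Real.exp (a' * Real.log (σ P))) :=
      h1.trans (mul_le_mul h2 h3 (by positivity) (by positivity))
    have h5 : (a':ℝ) * Real.log (σ P) ≤ a' * Y := mul_le_mul_of_nonneg_left hpY (by linarith)
    have h6 : (a':ℝ) ≤ 145 * Y * L := by exact_mod_cast hcase.le
    have h7 : (a':ℝ) * Y ≤ 145 * Y * L * Y := mul_le_mul_of_nonneg_right h6 (by linarith)
    have h8 : (145:ℝ) * Y * L * Y ≤ 145 * (Y^2 * L^2) := by
      have : (L:ℝ) ≤ L^2 := by nlinarith
      have h9 : (0:ℝ) ≤ Y^2 := by positivity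
      nlinarith [mul_le_mul_of_nonneg_left this h9]
    have h10 : Real.exp (a' * Real.log (σ P)) ≤ Real.exp (145 * (Y^2 * L^2)) :=
      Real.exp_le_exp.mpr (by linarith)
    have h11 : 1 ≤ Real.exp (145 * (Y^2 * L^2)) * Real.exp (145 * (Y^2 * L^2)) * (8 * |Λ|) := by
      refine h4.trans ?_
      have : (Real.exp (a' * Real.log (σ P)) * (2 * |Λ|)) * (4 * Real.exp (a' * Real.log (σ P))) =
        Real.exp (a' * Real.log (σ P)) * Real.exp (a' * Real.log (σ P)) * (8 * |Λ|) := by ring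
      rw [this]
      gcongr
    rw [← Real.exp_add] at h11
    have h12 : (8:ℝ) < Real.exp 3 := by
      have h13 : (2.7182818283:ℝ) ^ 3 ≤ Real.exp 1 ^ 3 :=
        pow_le_pow_left₀ (by norm_num) Real.exp_one_gt_d9.le _
      rw [← Real.exp_nat_mul] at h13
      norm_num at h13 ⊢
      linarith
    have hΛ0 : 0 < |Λ| := by
      by_contra h0
      have : |Λ| = 0 := le_antisymm (not_lt.mp h0) (abs_nonneg _)
      rw [this] at h11
      norm_num at h11
    have h14 : 1 < Real.exp (145 * (Y^2 * L^2) + 145 * (Y^2 * L^2) + 3) * |Λ| := by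
      rw [Real.exp_add]
      calc (1:ℝ) ≤ Real.exp (145 * (Y^2 * L^2) + 145 * (Y^2 * L^2)) * (8 * |Λ|) := h11
        _ < Real.exp (145 * (Y^2 * L^2) + 145 * (Y^2 * L^2)) * (Real.exp 3 * |Λ|) := by
            apply mul_lt_mul_of_pos_left _ (Real.exp_pos _)
            exact mul_lt_mul_of_pos_right h12 hΛ0
        _ = _ := by ring
    have h15 : Real.exp (-(145 * ((Y:ℝ)^2 * L^2) + 145 * (Y^2 * L^2) + 3)) < |Λ| := by
      rw [Real.exp_neg, inv_lt_iff_one_lt_mul₀' (Real.exp_pos _)]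
      exact h14
    refine lt_of_le_of_lt (Real.exp_le_exp.mpr ?_) h15
    nlinarith

end Pool.Agent.K4H73.LU
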