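import Mathlib
import Pool.Agent.K4H73.LU.Gen
import Pool.Agent.K4H73.LU.Cases2
import Pool.Agent.K4H73.NP.Basic

/-!
# Lucas sequences: the Binet formulas, logarithms, and the lower bound for linear forms in `log α` and the
logarithm of an integer
-/

set_option autoImplicit false

namespace Pool.Agent.K4H73.LU

open Polynomial

/-- the companion Lucas sequence `V_0 = 2`, `V_1 = P`, `V_{n+2} = P V_{n+1} - Q V_n` -/
def lucV (P Q : ℤ) : ℕ → ℤ
  | 0 => 2
  | 1 => P
  | n + 2 => P * lucV P Q (n + 1) - Q * lucV P Q n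

/-- the Lucas sequence `U_0 = 0`, `U_1 = 1`, `U_{n+2} = P U_{n+1} - Q U_n` -/
def lucU (P Q : ℤ) : ℕ → ℤ
  | 0 => 0
  | 1 => 1
  | n + 2 => P * lucU P Q (n + 1) - Q * lucU P Q n

/-- the roots of `X ^ 2 - P X + Q` -/
structure Root (P Q : ℤ) (α β : ℝ) : Prop where
  sum : α + β = P
  prod : α * β = Q
  gap : 1 ≤ α - β
  abs : |β| < α
  one : 1 < α
  ne : β ≠ 0

theorem exists_root {P Q : ℤ} (hP : 1 ≤ P) (hQ : Q ≠ 0) (hΔ : 4 * Q < P ^ 2) :
    ∃ α β : ℝ, Root P Q α β ∧ (α - β) ^ 2 = ((P ^ 2 - 4 * Q : ℤ) : ℝ) := by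
  have hΔ1 : (1 : ℝ) ≤ ((P ^ 2 - 4 * Q : ℤ) : ℝ) := by exact_mod_cast (by omega : 1 ≤ P ^ 2 - 4 * Q)
  obtain ⟨s, hs⟩ : ∃ s, s = Real.sqrt ((P ^ 2 - 4 * Q : ℤ) : ℝ) := ⟨_, rfl⟩
  have hs2 : s ^ 2 = ((P ^ 2 - 4 * Q : ℤ) : ℝ) := by rw [hs, Real.sq_sqrt (by linarith)]
  have hs1 : 1 ≤ s := by rw [hs]; exact Real.one_le_sqrt.2 hΔ1
  have hP1 : (1 : ℝ) ≤ P := by exact_mod_cast hP
  have hsum : (P + s) / 2 + (P - s) / 2 = (P : ℝ) := by ring
  have hprod : (P + s) / 2 * ((P - s) / 2) = (Q : ℝ) := by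
    have : (P + s) / 2 * ((P - s) / 2) = ((P : ℝ) ^ 2 - s ^ 2) / 4 := by ring
    rw [this, hs2]
    push_cast
    ring
  refine ⟨(P + s) / 2, (P - s) / 2, ⟨hsum, hprod, by linarith, ?_, ?_, ?_⟩, ?_⟩
  · rw [abs_lt]; constructor <;> linarith
  · by_contra hle
    push Not at hle
    have h1 : s = 1 := by linarith
    have h2 : (P : ℝ) = 1 := by linarith
    rw [h1, h2] at hprod
    norm_num at hprod
    exact hQ (by exact_mod_cast hprod.symm)
  · intro h
    rw [h, mul_zero] at hprod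
    exact hQ (by exact_mod_cast hprod.symm)
  · rw [← hs2]; ring

section
variable {P Q : ℤ} {α β : ℝ}

lemma Root.sq (R : Root P Q α β) : α ^ 2 = P * α - Q := by
  rw [← R.sum, ← R.prod]; ring

lemma Root.sq' (R : Root P Q α β) : β ^ 2 = P * β - Q := by
  rw [← R.sum, ← R.prod]; ring

lemma Root.V (R : Root P Q α β) : ∀ n, ((lucV P Q n : ℤ) : ℝ) = α ^ n + β ^ n
  | 0 => by simp [lucV]; norm_num
  | 1 => by simp [lucV, R.sum]
  | n + 2 => by
    have h1 := R.V n
    have h2 := R.V (n + 1)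
    simp only [lucV]
    push_cast
    rw [h1, h2, pow_add α n 2, pow_add β n 2, R.sq, R.sq']
    ring

lemma Root.U (R : Root P Q α β) : ∀ n, ((lucU P Q n : ℤ) : ℝ) * (α - β) = α ^ n - β ^ n
  | 0 => by simp [lucU]
  | 1 => by simp [lucU]
  | n + 2 => by
    have h1 := R.U n
    have h2 := R.U (n + 1)
    simp only [lucU]
    push_cast
    have h3 : ((P : ℝ) * lucU P Q (n + 1) - Q * lucU P Q n) * (α - β) =
        P * (lucU P Q (n + 1) * (α - β)) - Q * (lucU P Q n * (α - β)) := by ring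
    rw [h3, h1, h2, pow_add α n 2, pow_add β n 2, R.sq, R.sq']
    ring

/-- reduction modulo `X ^ 2 - P X + Q` -/
lemma Root.red (R : Root P Q α β) (f : ℤ[X]) : ∃ x y : ℤ,
    f.eval₂ (Int.castRingHom ℝ) α = x + y * α ∧ f.eval₂ (Int.castRingHom ℝ) β = x + y * β := by
  induction f using Polynomial.induction_on' with
  | add p q hp hq =>
    obtain ⟨x, y, h1, h2⟩ := hp
    obtain ⟨x', y', h3, h4⟩ := hq
    refine ⟨x + x', y + y', ?_, ?_⟩
    · rw [eval₂_add, h1, h3]; push_cast; ring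
    · rw [eval₂_add, h2, h4]; push_cast; ring
  | monomial n a =>
    have key : ∀ n : ℕ, ∃ x y : ℤ, α ^ n = x + y * α ∧ β ^ n = x + y * β := by
      intro n
      induction n with
      | zero => exact ⟨1, 0, by simp, by simp⟩
      | succ n ih =>
        obtain ⟨x, y, h1, h2⟩ := ih
        refine ⟨-(y * Q), x + y * P, ?_, ?_⟩
        · rw [pow_succ, h1]
          have := R.sq
          push_cast
          linear_combination (y : ℝ) * this
        · rw [pow_succ, h2]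
          have := R.sq'
          push_cast
          linear_combination (y : ℝ) * this
    obtain ⟨x, y, h1, h2⟩ := key n
    refine ⟨a * x, a * y, ?_, ?_⟩
    · rw [eval₂_monomial, h1]; simp; ring
    · rw [eval₂_monomial, h2]; simp; ring

/-- the norm of a nonzero element is at least `1` -/
lemma Root.norm (R : Root P Q α β) (f : ℤ[X]) (h : f.eval₂ (Int.castRingHom ℝ) α ≠ 0) :
    1 ≤ |f.eval₂ (Int.castRingHom ℝ) α| * max 1 |f.eval₂ (Int.castRingHom ℝ) β| := by
  obtain ⟨x, y, h1, h2⟩ := R.red f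
  rw [h1] at h
  rw [h1, h2]
  by_cases h0 : (x : ℝ) + y * β = 0
  · have hy : y ≠ 0 := by
      rintro rfl
      simp at h0
      apply h
      simp [h0]
    have hy1 : (1 : ℝ) ≤ |(y : ℝ)| := by
      rw [← Int.cast_abs]; exact_mod_cast Int.one_le_abs hy
    have h3 : (x : ℝ) + y * α = y * (α - β) := by linarith
    have h4 : 1 ≤ |(x : ℝ) + y * α| := by
      rw [h3, abs_mul]
      exact one_le_mul_of_one_le_of_one_le hy1 (R.gap.trans (le_abs_self _))
    exact one_le_mul_of_one_le_of_one_le h4 (le_max_left _ _)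
  · have h3 : ((x : ℝ) + y * α) * (x + y * β) = ((x ^ 2 + x * y * P + y ^ 2 * Q : ℤ) : ℝ) := by
      push_cast
      rw [← R.sum, ← R.prod]
      ring
    have h4 : (x ^ 2 + x * y * P + y ^ 2 * Q : ℤ) ≠ 0 := by
      intro h5
      rw [h5, Int.cast_zero] at h3
      rcases mul_eq_zero.1 h3 with h6 | h6
      · exact h h6
      · exact h0 h6
    have h5 : (1 : ℝ) ≤ |((x ^ 2 + x * y * P + y ^ 2 * Q : ℤ) : ℝ)| := by
      rw [← Int.cast_abs]; exact_mod_cast Int.one_le_abs h4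
    rw [← h3, abs_mul] at h5
    exact h5.trans (mul_le_mul_of_nonneg_left (le_max_right _ _) (abs_nonneg _))

lemma Root.ratio (R : Root P Q α β) : 0 < |β| / α ∧ |β| / α < 1 := by
  have h1 : 0 < α := by linarith [R.one]
  refine ⟨div_pos (abs_pos.2 R.ne) h1, ?_⟩
  rw [div_lt_one h1]
  exact R.abs

/-- the deviation of `log V_n` from `n log α` -/
noncomputable def dev (α β : ℝ) (s : ℝ) (n : ℕ) : ℝ := Real.log (1 + s * (β / α) ^ n)

lemma Root.absp (R : Root P Q α β) (n : ℕ) {s : ℝ} (hs : |s| = 1) :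
    |s * (β / α) ^ n| = (|β| / α) ^ n := by
  have h1 : 0 < α := by linarith [R.one]
  rw [abs_mul, hs, one_mul, abs_pow, abs_div, abs_of_pos h1]

lemma Root.dv (R : Root P Q α β) {r : ℕ} (hr : (|β| / α) ^ r ≤ 1 / 2) {s : ℝ} (hs : |s| = 1) :
    Dv (|β| / α) (dev α β s) r := by
  intro n hn
  have h2 : (|β| / α) ^ n ≤ 1 / 2 :=
    (pow_le_pow_of_le_one R.ratio.1.le R.ratio.2.le hn).trans hr
  have h3 := NP.log_bound (z := s * (β / α) ^ n) (by rw [R.absp n hs]; exact h2)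
  have h4 : (s * (β / α) ^ n) ^ 2 = ((|β| / α) ^ n) ^ 2 := by
    rw [← sq_abs (s * (β / α) ^ n), R.absp n hs]
  rw [h4] at h3
  have h5 := abs_sub_abs_le_abs_sub (dev α β s n) (s * (β / α) ^ n)
  have h6 := abs_sub_abs_le_abs_sub (s * (β / α) ^ n) (dev α β s n)
  rw [abs_sub_comm (s * (β / α) ^ n)] at h6
  rw [R.absp n hs] at h5 h6
  unfold dev at h5 h6 ⊢
  constructor
  · linarith
  · linarith

lemma Root.pos1 (R : Root P Q α β) {n : ℕ} (hn : 1 ≤ n) {s : ℝ} (hs : |s| = 1) :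
    0 < 1 + s * (β / α) ^ n := by
  have h1 : (|β| / α) ^ n < 1 := pow_lt_one₀ R.ratio.1.le R.ratio.2 (by omega)
  have h2 := neg_abs_le (s * (β / α) ^ n)
  rw [R.absp n hs] at h2
  linarith

lemma Root.logV (R : Root P Q α β) {n : ℕ} (hn : 1 ≤ n) :
    Real.log (lucV P Q n) = n * Real.log α + dev α β 1 n := by
  have h1 : 0 < α := by linarith [R.one]
  have h2 : ((lucV P Q n : ℤ) : ℝ) = α ^ n * (1 + 1 * (β / α) ^ n) := by
    rw [R.V n, div_pow]; field_simp
  rw [h2, Real.log_mul (by positivity) (R.pos1 hn (by norm_num)).ne', Real.log_pow]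
  rfl

lemma Root.logU (R : Root P Q α β) {n : ℕ} (hn : 1 ≤ n) :
    Real.log (lucU P Q n) = n * Real.log α - Real.log (α - β) + dev α β (-1) n := by
  have h1 : 0 < α := by linarith [R.one]
  have h0 : 0 < α - β := by linarith [R.gap]
  have h2 : ((lucU P Q n : ℤ) : ℝ) = α ^ n * (1 + (-1) * (β / α) ^ n) / (α - β) := by
    rw [eq_div_iff h0.ne', R.U n, div_pow]; field_simp; ring
  rw [h2, Real.log_div (mul_ne_zero (by positivity) (R.pos1 hn (by norm_num)).ne') h0.ne',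
    Real.log_mul (by positivity) (R.pos1 hn (by norm_num)).ne', Real.log_pow]
  unfold dev
  ring

/-- `|log V_n - n log α| ≤ C` -/
lemma Root.dev_le (R : Root P Q α β) {n : ℕ} (hn : 1 ≤ n) {s : ℝ} (hs : |s| = 1) :
    |dev α β s n| ≤ Real.log 2 + 1 / (1 - |β| / α) := by
  have h0 := R.ratio
  have h1 : (|β| / α) ^ n ≤ |β| / α := by
    calc (|β| / α) ^ n ≤ (|β| / α) ^ 1 := pow_le_pow_of_le_one h0.1.le h0.2.le hn
      _ = _ := pow_one _
  have h2 := R.absp n hs
  have h3 := abs_le.1 (le_of_eq h2)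
  have h4 : 1 + s * (β / α) ^ n ≤ 2 := by linarith [h3.2, h0.2]
  have h5 : 1 - |β| / α ≤ 1 + s * (β / α) ^ n := by linarith [h3.1]
  have h6 : 0 < 1 - |β| / α := by linarith [h0.2]
  have h7 : 0 < 1 + s * (β / α) ^ n := by linarith
  unfold dev
  rw [abs_le]
  constructor
  · have h8 : Real.log (1 - |β| / α) ≤ Real.log (1 + s * (β / α) ^ n) := Real.log_le_log h6 h5
    have h9 : 1 - (1 - |β| / α)⁻¹ ≤ Real.log (1 - |β| / α) := Real.one_sub_inv_le_log_of_pos h6
    have h10 : 0 < Real.log 2 := Real.log_pos (by norm_num)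
    rw [one_div]
    linarith
  · have h8 : Real.log (1 + s * (β / α) ^ n) ≤ Real.log 2 := Real.log_le_log h7 h4
    have : 0 < 1 / (1 - |β| / α) := by positivity
    linarith

end

end Pool.Agent.K4H73.LU
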