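import Mathlib
import Pool.Agent.K4H73.LU.Seq
import Pool.Agent.K4H73.NP.Assemble

/-!
# Linear forms, and small, medium and large entries
-/

set_option autoImplicit false

namespace Pool.Agent.K4H73.LU

open Polynomial NP

/-- conditions on the bound `Y` for the logarithms of the small entries and the lower bound `E` for the
indices of the others -/
structure Lf (ρ ℓ m : ℝ) (r Y N E : ℕ) : Prop where
  Y1 : 1 ≤ Y
  N1 : 1 ≤ N
  ℓY : ℓ ≤ Y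
  Ym : (Y : ℝ) ≤ m
  hN : 16 * (1 + Real.log (290 * Y * N * (2 * m ^ 2))) ≤ N
  Er : r ≤ E
  EY : 2 * (Y : ℝ) ≤ ℓ * E
  small : (4 * m + 4 * ℓ * m + 4) * ρ ^ E < ℓ * Real.exp (-(20880 * (Y : ℝ) ^ 2 * (N : ℝ) ^ 2))

section
variable {P Q : ℤ} {α β ρ ℓ m : ℝ} {r Y N E : ℕ}

lemma Lf.hN' (F : Lf ρ ℓ m r Y N E) (hm : 1 ≤ m) {a b : ℕ} (ha : 1 ≤ a) (ham : (a : ℝ) ≤ m ^ 2)
    (hbm : (b : ℝ) ≤ m ^ 2) : 16 * (1 + Real.log (290 * Y * N * (a + b))) ≤ N := by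
  refine le_trans ?_ F.hN
  have hY : (1 : ℝ) ≤ Y := by exact_mod_cast F.Y1
  have hN : (1 : ℝ) ≤ N := by exact_mod_cast F.N1
  have ha' : (1 : ℝ) ≤ a := by exact_mod_cast ha
  have hb' : (0 : ℝ) ≤ b := Nat.cast_nonneg _
  have h2 : (a : ℝ) + b ≤ 2 * m ^ 2 := by linarith
  have h3 : Real.log (290 * Y * N * (a + b)) ≤ Real.log (290 * Y * N * (2 * m ^ 2)) := by
    apply Real.log_le_log (by positivity)
    exact mul_le_mul_of_nonneg_left h2 (by positivity)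
  linarith

/-- `α` and an integer -/
lemma Root.lfl (R : Root P Q α β) (F : Lf ρ (Real.log α) m r Y N E) (hm : 1 ≤ m) {w a b : ℕ}
    (hw : 2 ≤ w) (hwY : Real.log w ≤ Y) (ha : 1 ≤ a) (hb : 1 ≤ b) (ham : (a : ℝ) ≤ m ^ 2)
    (hbm : (b : ℝ) ≤ m ^ 2) :
    b * Real.log w = a * Real.log α ∨
      Real.exp (-(20880 * (Y : ℝ) ^ 2 * (N : ℝ) ^ 2)) ≤ |b * Real.log w - a * Real.log α| := by
  have hw1 : (1 : ℝ) < w := by exact_mod_cast (by omega : 1 < w)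
  by_cases hne : α ^ a = (w : ℝ) ^ b
  · left
    rw [← Real.log_pow, ← Real.log_pow, hne]
  · right
    have h := lfl_gen (R := ℤ[X]) (eval₂RingHom (Int.castRingHom ℝ) α)
      (eval₂RingHom (Int.castRingHom ℝ) β) (fun x hx => R.norm x (by simpa using hx)) X (C (w : ℤ))
      a b Y N (by simpa using R.one) (by simpa using hw1) ha hb (by simpa using hne) F.Y1 F.N1
      (by simpa using F.ℓY) (by simpa using hwY) (by simpa using R.abs.le) (by simp)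
      (F.hN' hm ha ham hbm)
    simpa using h.le

/-- two integers -/
lemma Lf.lfl (F : Lf ρ ℓ m r Y N E) (hm : 1 ≤ m) {v w a b : ℕ}
    (hv : 2 ≤ v) (hvY : Real.log v ≤ Y) (hw : 2 ≤ w) (hwY : Real.log w ≤ Y) (ha : 1 ≤ a)
    (hb : 1 ≤ b) (ham : (a : ℝ) ≤ m ^ 2) (hbm : (b : ℝ) ≤ m ^ 2) :
    b * Real.log w = a * Real.log v ∨
      Real.exp (-(20880 * (Y : ℝ) ^ 2 * (N : ℝ) ^ 2)) ≤ |b * Real.log w - a * Real.log v| := by
  have hv1 : (1 : ℝ) < v := by exact_mod_cast (by omega : 1 < v)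
  have hw1 : (1 : ℝ) < w := by exact_mod_cast (by omega : 1 < w)
  by_cases hne : (v : ℝ) ^ a = (w : ℝ) ^ b
  · left
    rw [← Real.log_pow, ← Real.log_pow, hne]
  · right
    have h := lfl_gen (R := ℤ) (Int.castRingHom ℝ) (Int.castRingHom ℝ) (fun x hx => by
      have hx0 : x ≠ 0 := by rintro rfl; simp at hx
      have h1 : (1 : ℝ) ≤ |(x : ℝ)| := by rw [← Int.cast_abs]; exact_mod_cast Int.one_le_abs hx0
      exact one_le_mul_of_one_le_of_one_le (by simpa using h1) (le_max_left _ _)) (v : ℤ) (w : ℤ)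
      a b Y N (by simpa using hv1) (by simpa using hw1) ha hb (by simpa using hne) F.Y1 F.N1
      (by simpa using hvY) (by simpa using hwY) (by simp) (by simp)
      (F.hN' hm ha ham hbm)
    simpa using h.le

/-- `n` is a term of the sequence, with index between `E` and `m` -/
def IsV (P Q : ℤ) (m : ℝ) (E n : ℕ) : Prop := ∃ k, (n : ℤ) = lucV P Q k ∧ E ≤ k ∧ (k : ℝ) ≤ m

/-- the entry `n`, with three thresholds -/
structure En (P Q : ℤ) (m : ℝ) (r E₂ E₃ : ℕ) (U₁ U₂ U₃ : ℝ) (n : ℕ) : Prop where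
  two : 2 ≤ n
  q1 : Real.log n ≤ U₁ ∨ IsV P Q m (r ^ 2) n
  q2 : Real.log n ≤ U₂ ∨ IsV P Q m E₂ n
  q3 : Real.log n ≤ U₃ ∨ IsV P Q m E₃ n

/-- the parameters -/
structure Pm (α β m : ℝ) (r Y₁ N₁ E₂ Y₂ N₂ E₃ : ℕ) (U₁ U₂ U₃ V : ℝ) : Prop where
  S : Sz (|β| / α) (Real.log α) m r
  F₁ : Lf (|β| / α) (Real.log α) m r Y₁ N₁ E₂
  F₂ : Lf (|β| / α) (Real.log α) m r Y₂ N₂ E₃
  h1 : U₁ ≤ Y₁
  h2 : U₂ ≤ Y₂
  h12 : U₁ ≤ U₂
  h23 : U₂ ≤ U₃
  hV : U₃ * U₃ ≤ V / 2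

end

lemma dep_cols {x y z w : ℝ} (h1 : x = y) (h2 : z = w) : Dep x y z w :=
  Or.inl ⟨1, 1, one_pos, one_pos, by rw [h1], by rw [h2]⟩

lemma dep_rows {x y z w : ℝ} (h1 : x = z) (h2 : y = w) : Dep x y z w :=
  Or.inr ⟨1, 1, one_pos, one_pos, by rw [h1], by rw [h2]⟩

section
variable {P Q : ℤ} {α β m : ℝ} {r Y₁ N₁ E₂ Y₂ N₂ E₃ : ℕ} {U₁ U₂ U₃ V : ℝ}

lemma log_eq (R : Root P Q α β) {n k : ℕ} (h : (n : ℤ) = lucV P Q k) (hk : 1 ≤ k) :
    Real.log n = k * Real.log α + dev α β 1 k := by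
  rw [← R.logV hk, ← h]
  norm_cast

lemma Pm.dv (Z : Pm α β m r Y₁ N₁ E₂ Y₂ N₂ E₃ U₁ U₂ U₃ V) (R : Root P Q α β) :
    Dv (|β| / α) (dev α β 1) r :=
  R.dv (by have := Z.S.x1; linarith) (by norm_num)

lemma asm_row (R : Root P Q α β) (Z : Pm α β m r Y₁ N₁ E₂ Y₂ N₂ E₃ U₁ U₂ U₃ V) {a b c d : ℕ}
    (Ha : En P Q m r E₂ E₃ U₁ U₂ U₃ a) (Hb : En P Q m r E₂ E₃ U₁ U₂ U₃ b)
    (Hc : En P Q m r E₂ E₃ U₁ U₂ U₃ c) (Hd : En P Q m r E₂ E₃ U₁ U₂ U₃ d)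
    (hmax : V < Real.log a ∨ V < Real.log b ∨ V < Real.log c ∨ V < Real.log d)
    (heq : Real.log a * Real.log d = Real.log b * Real.log c)
    (ha : Real.log a ≤ U₂) (hb : Real.log b ≤ U₂) :
    Dep (Real.log a) (Real.log b) (Real.log c) (Real.log d) := by
  have hU : U₃ * U₃ ≤ V / 2 := Z.hV
  have l1 := log_half Ha.two
  have l2 := log_half Hb.two
  have hU2 : 1 / 2 ≤ U₂ := l1.trans ha
  have hVU : U₂ ≤ V := by
    have := Z.h23
    nlinarith [Z.hV]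
  have hmax' : V < Real.log c ∨ V < Real.log d := by
    rcases hmax with h | h | h | h
    · linarith
    · linarith
    · exact Or.inl h
    · exact Or.inr h
  rcases Hc.q3 with hc | ⟨kc, Vc, hc1, hc2⟩
  · exfalso
    have h23 := Z.h23
    rcases hmax' with h | h
    · have : U₃ ≤ V := by nlinarith
      linarith
    · exact no_prod Hb.two Hc.two Ha.two Hd.two (hb.trans h23) hc hU (Or.inr h) heq.symm
  rcases Hd.q3 with hd | ⟨kd, Vd, hd1, hd2⟩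
  · exfalso
    have h23 := Z.h23
    rcases hmax' with h | h
    · exact no_prod Ha.two Hd.two Hb.two Hc.two (ha.trans h23) hd hU (Or.inr h) heq
    · have : U₃ ≤ V := by nlinarith
      linarith
  have hE1 : 1 ≤ E₃ := Z.S.r1.trans Z.F₂.Er
  have hm := Z.S.m1
  have hℓ := Z.S.ℓ0
  have ec := log_eq R Vc (by omega)
  have ed := log_eq R Vd (by omega)
  have hm2 : m ≤ m ^ 2 := by nlinarith
  have hs := Z.F₂.small
  have hρE : 0 < (|β| / α) ^ E₃ := pow_pos R.ratio.1 _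
  obtain ⟨h1, h2⟩ := case2 (Z.dv R) Z.S (x := Real.log a) (y := Real.log b) (Y := Y₂)
    (η := Real.exp (-(20880 * (Y₂ : ℝ) ^ 2 * (N₂ : ℝ) ^ 2)))
    (by linarith) (by linarith) (ha.trans Z.h2) (hb.trans Z.h2) Z.F₂.Ym Z.F₂.Er hc1 hd1
    (by
      have : 0 ≤ (4 * Real.log α * m + 4) * (|β| / α) ^ E₃ := by positivity
      linarith)
    (Z.F₂.lfl hm Hb.two (hb.trans Z.h2) Ha.two (ha.trans Z.h2) (by omega) (by omega)
      (hc2.trans hm2) (hd2.trans hm2))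
    (by rw [← ed, ← ec]; exact heq)
  refine dep_cols h1 ?_
  rw [ec, ed, h2]

lemma asm_small (R : Root P Q α β) (Z : Pm α β m r Y₁ N₁ E₂ Y₂ N₂ E₃ U₁ U₂ U₃ V) {a b c d : ℕ}
    (Ha : En P Q m r E₂ E₃ U₁ U₂ U₃ a) (Hb : En P Q m r E₂ E₃ U₁ U₂ U₃ b)
    (Hc : En P Q m r E₂ E₃ U₁ U₂ U₃ c) (Hd : En P Q m r E₂ E₃ U₁ U₂ U₃ d)
    (hmax : V < Real.log a ∨ V < Real.log b ∨ V < Real.log c ∨ V < Real.log d)
    (heq : Real.log a * Real.log d = Real.log b * Real.log c)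
    (ha : Real.log a ≤ U₁) :
    Dep (Real.log a) (Real.log b) (Real.log c) (Real.log d) := by
  have h12 := Z.h12
  have h23 := Z.h23
  have l1 := log_half Ha.two
  rcases Hb.q2 with hb | ⟨kb, Vb, hb1, hb2⟩
  · exact asm_row R Z Ha Hb Hc Hd hmax heq (ha.trans h12) hb
  rcases Hc.q2 with hc | ⟨kc, Vc, hc1, hc2⟩
  · refine (asm_row R Z Ha Hc Hb Hd ?_ (by rw [heq]; ring) (ha.trans h12) hc).tr
    tauto
  rcases Hd.q2 with hd | ⟨kd, Vd, hd1, hd2⟩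
  · exfalso
    have hU := Z.hV
    have hVU : U₂ ≤ V := by
      have : 1 / 2 ≤ U₂ := l1.trans (ha.trans h12)
      nlinarith
    have hmax' : V < Real.log b ∨ V < Real.log c := by
      rcases hmax with h | h | h | h
      · linarith
      · exact Or.inl h
      · exact Or.inr h
      · linarith
    exact no_prod Ha.two Hd.two Hb.two Hc.two (ha.trans (h12.trans h23)) (hd.trans h23) hU hmax' heq
  exfalso
  have hE1 : 1 ≤ E₂ := Z.S.r1.trans Z.F₁.Er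
  have hm := Z.S.m1
  have hℓ := Z.S.ℓ0
  have eb := log_eq R Vb (by omega)
  have ec := log_eq R Vc (by omega)
  have ed := log_eq R Vd (by omega)
  have hm2 : m ≤ m ^ 2 := by nlinarith
  have hs := Z.F₁.small
  have hρE : 0 < (|β| / α) ^ E₂ := pow_pos R.ratio.1 _
  have hbc : ((kb * kc : ℕ) : ℝ) ≤ m ^ 2 := by
    push_cast
    rw [pow_two]
    exact mul_le_mul hb2 hc2 (Nat.cast_nonneg _) (by linarith)
  have hl := R.lfl Z.F₁ hm Ha.two (ha.trans Z.h1) (a := kb * kc) (b := kd)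
    (Nat.mul_pos (by omega) (by omega)) (by omega) hbc (hd2.trans hm2)
  push_cast at hl
  refine case1 (Z.dv R) Z.S (x := Real.log a) (Y := Y₁)
    (η := Real.exp (-(20880 * (Y₁ : ℝ) ^ 2 * (N₁ : ℝ) ^ 2)))
    (by linarith) (ha.trans Z.h1) Z.F₁.Ym Z.F₁.Er Z.F₁.EY hb1 hc1 hd1 hb2 hc2 ?_ hl
    (by rw [← ed, ← ec, ← eb]; exact heq)
  have : 0 ≤ (2 * m) * (|β| / α) ^ E₂ := by positivity
  linarith

theorem asm (R : Root P Q α β) (Z : Pm α β m r Y₁ N₁ E₂ Y₂ N₂ E₃ U₁ U₂ U₃ V) {a b c d : ℕ}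
    (Ha : En P Q m r E₂ E₃ U₁ U₂ U₃ a) (Hb : En P Q m r E₂ E₃ U₁ U₂ U₃ b)
    (Hc : En P Q m r E₂ E₃ U₁ U₂ U₃ c) (Hd : En P Q m r E₂ E₃ U₁ U₂ U₃ d)
    (hmax : V < Real.log a ∨ V < Real.log b ∨ V < Real.log c ∨ V < Real.log d)
    (heq : Real.log a * Real.log d = Real.log b * Real.log c) :
    Dep (Real.log a) (Real.log b) (Real.log c) (Real.log d) := by
  rcases Ha.q1 with ha | ⟨ka, Va, ha1, ha2⟩
  · exact asm_small R Z Ha Hb Hc Hd hmax heq ha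
  rcases Hb.q1 with hb | ⟨kb, Vb, hb1, hb2⟩
  · refine (asm_small R Z Hb Ha Hd Hc ?_ heq.symm hb).cols
    tauto
  rcases Hc.q1 with hc | ⟨kc, Vc, hc1, hc2⟩
  · refine (asm_small R Z Hc Hd Ha Hb ?_ (by rw [mul_comm, ← heq, mul_comm]) hc).rows
    tauto
  rcases Hd.q1 with hd | ⟨kd, Vd, hd1, hd2⟩
  · refine (asm_small R Z Hd Hc Hb Ha ?_ (by rw [mul_comm, heq, mul_comm]) hd).rows.cols
    tauto
  have hr1 : 1 ≤ r ^ 2 := Nat.one_le_pow _ _ Z.S.r1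
  have ea := log_eq R Va (by omega)
  have eb := log_eq R Vb (by omega)
  have ec := log_eq R Vc (by omega)
  have ed := log_eq R Vd (by omega)
  rcases case0 (Z.dv R) Z.S ha1 hb1 hc1 hd1 ha2 hb2 hc2 hd2
    (by rw [← ea, ← ed, ← ec, ← eb]; exact heq) with ⟨h1, h2⟩ | ⟨h1, h2⟩
  · exact dep_cols (by rw [ea, eb, h1]) (by rw [ec, ed, h2])
  · exact dep_rows (by rw [ea, ec, h1]) (by rw [eb, ed, h2])

end

end Pool.Agent.K4H73.LU
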