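import Mathlib
import Pool.Agent.K4H73.LU.Asm
import Pool.Agent.K4H73.NP.Params

/-!
# The choice of the parameters
-/

set_option autoImplicit false

namespace Pool.Agent.K4H73.LU

open NP

/-- the conditions on `t` -/
structure Big (ρ ℓ : ℝ) (t : ℕ) : Prop where
  ρ0 : 0 < ρ
  ρ1 : ρ < 1
  ℓ0 : 0 < ℓ
  h1 : ρ ^ t ≤ 1 / 2
  h2 : 1 ≤ t * ℓ
  h3 : ℓ ≤ t
  h4 : 1 ≤ t * (1 - ρ)
  h5 : 10 ^ 10 ≤ t
  h6 : 100 * t ^ 2 ≤ 2 ^ t

lemma exists_big {ρ ℓ : ℝ} (h0 : 0 < ρ) (h1 : ρ < 1) (hℓ : 0 < ℓ) :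
    ∃ T : ℕ, ∀ t, T ≤ t → Big ρ ℓ t := by
  obtain ⟨T₃, hT₃⟩ := pow_le_two_pow 3
  have e1 := (tendsto_pow_atTop_nhds_zero_of_lt_one h0.le h1).eventually (gt_mem_nhds
    (by norm_num : (0 : ℝ) < 1 / 2))
  obtain ⟨T₁, hT₁⟩ := Filter.eventually_atTop.1 e1
  obtain ⟨A, hA⟩ := exists_nat_ge (1 / ℓ)
  obtain ⟨B, hB⟩ := exists_nat_ge ℓ
  obtain ⟨C, hC⟩ := exists_nat_ge (1 / (1 - ρ))
  refine ⟨T₃ + T₁ + A + B + C + 10 ^ 10, fun t ht => ?_⟩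
  have h1' : 0 < 1 - ρ := by linarith
  refine ⟨h0, h1, hℓ, (hT₁ t (by omega)).le, ?_, ?_, ?_, by omega, ?_⟩
  · have : (A : ℝ) ≤ t := by exact_mod_cast (by omega : A ≤ t)
    rw [← div_le_iff₀ hℓ]
    linarith
  · have : (B : ℝ) ≤ t := by exact_mod_cast (by omega : B ≤ t)
    linarith
  · have : (C : ℝ) ≤ t := by exact_mod_cast (by omega : C ≤ t)
    rw [← div_le_iff₀ h1']
    linarith
  · have h3 := hT₃ t (by omega)
    calc 100 * t ^ 2 ≤ t * t ^ 2 := Nat.mul_le_mul_right _ (by omega)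
      _ = t ^ 3 := by ring
      _ ≤ _ := h3

section
variable {ρ ℓ : ℝ} {t : ℕ}

lemma Big.pow (Z : Big ρ ℓ t) (j : ℕ) : ρ ^ (t * j) ≤ ((2 : ℝ) ^ j)⁻¹ := by
  rw [pow_mul]
  calc (ρ ^ t) ^ j ≤ (1 / 2) ^ j := pow_le_pow_left₀ (pow_nonneg Z.ρ0.le _) Z.h1 j
    _ = _ := by rw [one_div, inv_pow]

lemma Big.tr (Z : Big ρ ℓ t) : (10 : ℝ) ^ 10 ≤ t := by
  have := Z.h5
  exact_mod_cast this

lemma Big.sz (Z : Big ρ ℓ t) : Sz ρ ℓ ((8 : ℝ) ^ t) (t * (4 * t)) := by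
  have ht := Z.tr
  have h6 : (100 : ℝ) * t ^ 2 ≤ 2 ^ t := by exact_mod_cast Z.h6
  have ht0 : (0 : ℝ) < t := by linarith
  have hp := Z.pow (4 * t)
  have key : 100 * (8 : ℝ) ^ t * ρ ^ (t * (4 * t)) ≤ 1 / t ^ 2 := by
    have h1 : 100 * (8 : ℝ) ^ t * ρ ^ (t * (4 * t)) ≤ 100 * (8 : ℝ) ^ t * ((2 : ℝ) ^ (4 * t))⁻¹ :=
      mul_le_mul_of_nonneg_left hp (by positivity)
    refine h1.trans ?_
    rw [← div_eq_mul_inv, div_le_div_iff₀ (by positivity) (by positivity)]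
    have h2 : (2 : ℝ) ^ (4 * t) = 8 ^ t * 2 ^ t := by
      rw [show (8 : ℝ) = 2 ^ 3 by norm_num, ← pow_mul, ← pow_add]
      congr 1; ring
    rw [h2, one_mul]
    have h3 : (0 : ℝ) < 8 ^ t := by positivity
    calc 100 * (8 : ℝ) ^ t * t ^ 2 = 8 ^ t * (100 * t ^ 2) := by ring
      _ ≤ 8 ^ t * 2 ^ t := mul_le_mul_of_nonneg_left h6 h3.le
  have hρ : 1 / (t : ℝ) ≤ 1 - ρ := by
    rw [div_le_iff₀ ht0]
    linarith [Z.h4]
  have hℓ : 1 / (t : ℝ) ≤ ℓ := by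
    rw [div_le_iff₀ ht0]
    linarith [Z.h2]
  have h1t : 0 < 1 / (t : ℝ) := by positivity
  have hsq : 1 / (t : ℝ) ^ 2 = 1 / t * (1 / t) := by rw [pow_two]; field_simp
  refine ⟨Z.ρ0, Z.ρ1, Z.ℓ0, one_le_pow₀ (by norm_num), ?_, key.trans ?_, key.trans ?_, key.trans ?_⟩
  · have : 1 ≤ t := by
      have := Z.h5
      omega
    exact Nat.mul_pos (by omega) (by omega)
  · refine le_trans ?_ hρ
    rw [hsq]
    have : 1 / (t : ℝ) ≤ 1 := by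
      rw [div_le_one ht0]; linarith
    exact mul_le_of_le_one_left h1t.le this
  · rw [hsq]
    exact mul_le_mul hρ hℓ h1t.le (by linarith [Z.ρ1])
  · rw [hsq, pow_two]
    exact mul_le_mul hℓ hℓ h1t.le Z.ℓ0.le

/-- the lower bound for the indices -/
def Ed (t κ : ℕ) : ℕ := t * (2 * (20880 * (t ^ κ) ^ 2 * (256 * t) ^ 2) + 10 * t)

lemma lin_le {t : ℕ} (ht : 12 ≤ t) : 256 * t ≤ 2 ^ t := by
  induction t, ht using Nat.le_induction with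
  | base => norm_num
  | succ t ht ih =>
    rw [pow_succ]
    omega

lemma Big.lf (Z : Big ρ ℓ t) {κ : ℕ} (hκ : 1 ≤ κ) (hY : t ^ κ ≤ 2 ^ t) :
    Lf ρ ℓ ((8 : ℝ) ^ t) (t * (4 * t)) (t ^ κ) (256 * t) (Ed t κ) := by
  have ht := Z.tr
  have h5 := Z.h5
  have ht12 : 12 ≤ t := by omega
  have hN := lin_le ht12
  have h6 : (100 : ℝ) * t ^ 2 ≤ 2 ^ t := by exact_mod_cast Z.h6
  have ht0 : (0 : ℝ) < t := by linarith
  have hY0 : t ≤ t ^ κ := by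
    calc t = t ^ 1 := (pow_one t).symm
      _ ≤ t ^ κ := Nat.pow_le_pow_right (by omega) hκ
  obtain ⟨Y, hYd⟩ : ∃ Y, Y = t ^ κ := ⟨_, rfl⟩
  obtain ⟨N, hNd⟩ : ∃ N, N = 256 * t := ⟨_, rfl⟩
  unfold Ed
  rw [← hYd] at hY hY0 ⊢
  rw [← hNd] at hN ⊢
  have hY1 : 1 ≤ Y := by omega
  have hN1 : 1 ≤ N := by omega
  have hYr : (1 : ℝ) ≤ Y := by exact_mod_cast hY1
  have hNr : (1 : ℝ) ≤ N := by exact_mod_cast hN1
  obtain ⟨X, hX⟩ : ∃ X : ℕ, X = 20880 * Y ^ 2 * N ^ 2 := ⟨_, rfl⟩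
  have hXr : 20880 * (Y : ℝ) ^ 2 * (N : ℝ) ^ 2 = X := by rw [hX]; push_cast; ring
  have hXY : Y ≤ X := by
    rw [hX]
    have h1 : 1 ≤ Y * N ^ 2 * 20880 := Nat.mul_pos (Nat.mul_pos hY1 (Nat.pow_pos hN1)) (by norm_num)
    calc Y = Y * 1 := (mul_one _).symm
      _ ≤ Y * (Y * N ^ 2 * 20880) := Nat.mul_le_mul_left _ h1
      _ = _ := by ring
  rw [← hX]
  refine ⟨hY1, hN1, ?_, ?_, ?_, ?_, ?_, ?_⟩
  · have : (t : ℝ) ≤ Y := by exact_mod_cast hY0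
    linarith [Z.h3]
  · have h1 : (Y : ℝ) ≤ 2 ^ t := by exact_mod_cast hY
    exact h1.trans (pow_le_pow_left₀ (by norm_num) (by norm_num) t)
  · have h1 : (290 * (Y : ℝ) * N * (2 * ((8 : ℝ) ^ t) ^ 2)) ≤ (2 : ℝ) ^ (8 * t + 10) := by
      have hYr2 : (Y : ℝ) ≤ 2 ^ t := by exact_mod_cast hY
      have hNr2 : (N : ℝ) ≤ 2 ^ t := by exact_mod_cast hN
      calc 290 * (Y : ℝ) * N * (2 * ((8 : ℝ) ^ t) ^ 2)
          ≤ 2 ^ 9 * 2 ^ t * 2 ^ t * (2 * ((8 : ℝ) ^ t) ^ 2) := by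
            apply mul_le_mul_of_nonneg_right _ (by positivity)
            apply mul_le_mul _ hNr2 (by positivity) (by positivity)
            apply mul_le_mul (by norm_num) hYr2 (by positivity) (by positivity)
        _ = (2 : ℝ) ^ (8 * t + 10) := by
            rw [show (8 : ℝ) = 2 ^ 3 by norm_num, ← pow_mul, ← pow_mul, ← pow_succ', ← pow_add,
              ← pow_add, ← pow_add]
            congr 1; ring
    have h3 : Real.log (290 * (Y : ℝ) * N * (2 * ((8 : ℝ) ^ t) ^ 2)) ≤ (8 * t + 10 : ℕ) := by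
      refine (Real.log_le_log (by positivity) h1).trans ?_
      rw [Real.log_pow]
      have h4 : Real.log 2 ≤ 1 := by
        have := Real.log_two_lt_d9
        linarith
      have h5 : (0 : ℝ) ≤ ((8 * t + 10 : ℕ) : ℝ) := by positivity
      nlinarith
    have h4 : (N : ℝ) = 256 * t := by rw [hNd]; push_cast; ring
    rw [h4] at h3 ⊢
    push_cast at h3 ⊢
    linarith
  · exact Nat.mul_le_mul_left _ (by omega)
  · have h1 : (2 : ℝ) * Y ≤ t * ℓ * (2 * X + 10 * t) := by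
      have h2 : (Y : ℝ) ≤ X := by exact_mod_cast hXY
      have h3 := Z.h2
      have h4 : (1 : ℝ) * (2 * X + 10 * t) ≤ t * ℓ * (2 * X + 10 * t) :=
        mul_le_mul_of_nonneg_right h3 (by positivity)
      linarith
    push_cast
    linarith
  · rw [hXr]
    have hp := Z.pow (2 * X + 10 * t)
    have hℓ : 1 / (t : ℝ) ≤ ℓ := by
      rw [div_le_iff₀ ht0]
      linarith [Z.h2]
    have h8 : (1 : ℝ) ≤ 8 ^ t := one_le_pow₀ (by norm_num)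
    have h7 : 4 * (8 : ℝ) ^ t + 4 * ℓ * 8 ^ t + 4 ≤ (12 * t) * 8 ^ t := by
      have h9 : ℓ * 8 ^ t ≤ t * 8 ^ t := mul_le_mul_of_nonneg_right Z.h3 (by positivity)
      have h10 : 1 * (8 : ℝ) ^ t ≤ t * 8 ^ t := mul_le_mul_of_nonneg_right (by linarith) (by positivity)
      linarith
    have hexp : Real.exp X ≤ (2 : ℝ) ^ (2 * X) := by
      have h5 : Real.exp X = Real.exp 1 ^ X := by rw [← Real.exp_nat_mul, mul_one]
      rw [h5, pow_mul]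
      refine pow_le_pow_left₀ (Real.exp_pos 1).le ?_ X
      have := Real.exp_one_lt_d9
      norm_num; linarith
    have hL : (4 * (8 : ℝ) ^ t + 4 * ℓ * 8 ^ t + 4) * ρ ^ (t * (2 * X + 10 * t)) ≤
        ((12 * t) * 8 ^ t) * ((2 : ℝ) ^ (2 * X + 10 * t))⁻¹ :=
      mul_le_mul h7 hp (pow_nonneg Z.ρ0.le _) (by positivity)
    refine lt_of_le_of_lt hL ?_
    have hR : 1 / (t : ℝ) * ((2 : ℝ) ^ (2 * X))⁻¹ ≤ ℓ * Real.exp (-(X : ℝ)) := by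
      apply mul_le_mul hℓ _ (by positivity) Z.ℓ0.le
      rw [Real.exp_neg]
      exact inv_anti₀ (Real.exp_pos _) hexp
    refine lt_of_lt_of_le ?_ hR
    rw [pow_add, mul_inv, ← mul_assoc, one_div, mul_comm (((12 * (t : ℝ)) * 8 ^ t) * ((2 : ℝ) ^ (2 * X))⁻¹),
      ← mul_assoc]
    apply mul_lt_mul_of_pos_right _ (by positivity)
    rw [← div_eq_inv_mul, div_lt_iff₀ (by positivity), inv_mul_eq_div, lt_div_iff₀ ht0]
    calc 12 * (t : ℝ) * 8 ^ t * t = 8 ^ t * (12 * t ^ 2) := by ring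
      _ < 8 ^ t * (2 ^ t) := by
          apply mul_lt_mul_of_pos_left _ (by positivity)
          have : (0 : ℝ) < t ^ 2 := by positivity
          linarith
      _ ≤ 8 ^ t * (2 ^ (7 * t)) := by
          apply mul_le_mul_of_nonneg_left _ (by positivity)
          exact pow_le_pow_right₀ (by norm_num) (by omega)
      _ = 2 ^ (10 * t) := by
          rw [show (8 : ℝ) = 2 ^ 3 by norm_num, ← pow_mul, ← pow_add]
          congr 1; ring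

lemma Ed_le {t κ : ℕ} (ht : 10 ^ 10 ≤ t) : Ed t κ * t + t + 1 ≤ t ^ (2 * κ + 5) := by
  have ht1 : 1 ≤ t := by omega
  obtain ⟨Z, hZ⟩ : ∃ Z, Z = t ^ (2 * κ + 4) := ⟨_, rfl⟩
  have hZ1 : t ^ (2 * κ + 5) = Z * t := by rw [hZ, ← pow_succ]
  have hZa : (t ^ κ) ^ 2 * t ^ 4 = Z := by rw [hZ, ← pow_mul, ← pow_add]; congr 1; ring
  have hZb : t ^ 3 ≤ Z := by rw [hZ]; exact Nat.pow_le_pow_right ht1 (by omega)
  have hZd : t ≤ Z := by
    calc t = t ^ 1 := (pow_one t).symm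
      _ ≤ Z := by rw [hZ]; exact Nat.pow_le_pow_right ht1 (by omega)
  rw [hZ1]
  have e : Ed t κ * t = 2736783360 * ((t ^ κ) ^ 2 * t ^ 4) + 10 * t ^ 3 := by
    unfold Ed; ring
  rw [e, hZa]
  calc 2736783360 * Z + 10 * t ^ 3 + t + 1 ≤ 2736783360 * Z + 10 * Z + Z + Z := by omega
    _ = Z * 2736783372 := by ring
    _ ≤ Z * t := Nat.mul_le_mul_left _ (by omega)

end

section
variable {P Q : ℤ} {α β : ℝ} {t : ℕ}

lemma dev_bound (R : Root P Q α β) (Z : Big (|β| / α) (Real.log α) t) {k : ℕ} (hk : 1 ≤ k) :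
    |dev α β 1 k| ≤ 1 + t := by
  have h1 := R.dev_le hk (s := 1) (by norm_num)
  have h2 := Z.h4
  have h3 : 0 < 1 - |β| / α := by linarith [Z.ρ1]
  have h4 : 1 / (1 - |β| / α) ≤ t := by rw [div_le_iff₀ h3]; exact h2
  have h5 := Real.log_two_lt_d9
  linarith

lemma k_ge (R : Root P Q α β) (Z : Big (|β| / α) (Real.log α) t) {n k E U : ℕ} (hn : 2 ≤ n)
    (h : (n : ℤ) = lucV P Q k) (hE : E * t + t + 1 ≤ U) (hU : (U : ℝ) < Real.log n) : E ≤ k := by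
  by_contra hcon
  push Not at hcon
  have ht := Z.tr
  rcases Nat.eq_zero_or_pos k with h0 | h0
  · subst h0
    have h1 : n = 2 := by
      have : (n : ℤ) = 2 := h
      omega
    rw [h1] at hU
    have h2 := Real.log_two_lt_d9
    have h3 : (1 : ℝ) ≤ U := by
      have : 1 ≤ U := by omega
      exact_mod_cast this
    push_cast at hU
    linarith
  · have h1 := log_eq R h h0
    have h2 := (abs_le.1 (dev_bound R Z h0)).2
    have h3 : (k : ℝ) ≤ E := by exact_mod_cast hcon.le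
    have h4 : (k : ℝ) * Real.log α ≤ E * t := mul_le_mul h3 Z.h3 Z.ℓ0.le (Nat.cast_nonneg _)
    have h5 : ((E * t + t + 1 : ℕ) : ℝ) ≤ U := by exact_mod_cast hE
    push_cast at h5
    linarith

lemma k_le (R : Root P Q α β) (Z : Big (|β| / α) (Real.log α) t) {n k : ℕ}
    (h : (n : ℤ) = lucV P Q k) (hn : Real.log n ≤ Real.exp t) : (k : ℝ) ≤ 8 ^ t := by
  rcases Nat.eq_zero_or_pos k with h0 | h0
  · subst h0
    have : (0 : ℝ) ≤ 8 ^ t := by positivity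
    simpa using this
  · have ht := Z.tr
    have h1 := log_eq R h h0
    have h2 := (abs_le.1 (dev_bound R Z h0)).1
    have h3 : (k : ℝ) * Real.log α ≤ 2 * Real.exp t := by
      have := Real.add_one_le_exp (t : ℝ)
      linarith
    have h4 : (k : ℝ) ≤ k * (t * Real.log α) := le_mul_of_one_le_right (Nat.cast_nonneg _) Z.h2
    have h5 : (k : ℝ) ≤ t * (2 * Real.exp t) := by
      calc (k : ℝ) ≤ k * (t * Real.log α) := h4
        _ = t * (k * Real.log α) := by ring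
        _ ≤ _ := mul_le_mul_of_nonneg_left h3 (by linarith)
    have h6 : Real.exp t ≤ 4 ^ t := by
      have h5 : Real.exp t = Real.exp 1 ^ t := by rw [← Real.exp_nat_mul, mul_one]
      rw [h5]
      refine pow_le_pow_left₀ (Real.exp_pos 1).le ?_ t
      have := Real.exp_one_lt_d9
      linarith
    have h7 : (2 : ℝ) * t ≤ 2 ^ t := by
      have h8 : (100 : ℝ) * t ^ 2 ≤ 2 ^ t := by exact_mod_cast Z.h6
      nlinarith
    have h8 : (8 : ℝ) ^ t = 2 ^ t * 4 ^ t := by rw [← mul_pow]; norm_num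
    rw [h8]
    calc (k : ℝ) ≤ (2 * t) * Real.exp t := by linarith
      _ ≤ 2 ^ t * 4 ^ t := mul_le_mul h7 h6 (Real.exp_pos _).le (by positivity)

/-- the array version in terms of `Dep` -/
theorem arrays (R : Root P Q α β) (K : ℕ) : ∃ T : ℕ, ∀ t : ℕ, T ≤ t → ∀ x ℓ : ℝ, 0 ≤ x → x ≤ t →
    ℓ ≤ Real.exp t → 2 ^ t / 2 < ℓ →
    ∀ a b c d : ℕ, 2 ≤ a → 2 ≤ b → 2 ≤ c → 2 ≤ d →
    Real.log a ≤ ℓ → Real.log b ≤ ℓ → Real.log c ≤ ℓ → Real.log d ≤ ℓ →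
    (Real.log a = ℓ ∨ Real.log b = ℓ ∨ Real.log c = ℓ ∨ Real.log d = ℓ) →
    (Real.log a ≤ x ^ K ∨ ∃ k, (a : ℤ) = lucV P Q k) →
    (Real.log b ≤ x ^ K ∨ ∃ k, (b : ℤ) = lucV P Q k) →
    (Real.log c ≤ x ^ K ∨ ∃ k, (c : ℤ) = lucV P Q k) →
    (Real.log d ≤ x ^ K ∨ ∃ k, (d : ℤ) = lucV P Q k) →
    Real.log a * Real.log d = Real.log b * Real.log c →
    Dep (Real.log a) (Real.log b) (Real.log c) (Real.log d) := by
  obtain ⟨K₁, hK₁⟩ : ∃ K₁, K₁ = K + 6 := ⟨_, rfl⟩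
  obtain ⟨K₂, hK₂⟩ : ∃ K₂, K₂ = 2 * K₁ + 5 := ⟨_, rfl⟩
  obtain ⟨K₃, hK₃⟩ : ∃ K₃, K₃ = 2 * K₂ + 5 := ⟨_, rfl⟩
  obtain ⟨T₁, hT₁⟩ := pow_le_two_pow (2 * K₃ + 1)
  obtain ⟨T₂, hT₂⟩ := exists_big R.ratio.1 R.ratio.2 (Real.log_pos R.one)
  refine ⟨T₁ + T₂, ?_⟩
  intro t ht x ℓ hx0 hxt hℓe hℓ2 a b c d ha2 hb2 hc2 hd2 ha hb hc hd hmax na nb nc nd heq
  have hP := hT₁ t (by omega)
  have Z := hT₂ t (by omega)
  have h5 := Z.h5
  have ht1 : 1 ≤ t := by omega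
  have hpm : ∀ {p q : ℕ}, p ≤ q → t ^ p ≤ t ^ q := fun h => Nat.pow_le_pow_right ht1 h
  have hY : ∀ κ : ℕ, κ ≤ K₂ → t ^ κ ≤ 2 ^ t := fun κ h2 => (hpm (by omega)).trans hP
  have hxK : x ^ K ≤ ((t ^ K : ℕ) : ℝ) := by push_cast; exact pow_le_pow_left₀ hx0 hxt K
  have F₁ := Z.lf (κ := K₁) (by omega) (hY K₁ (by omega))
  have F₂ := Z.lf (κ := K₂) (by omega) (hY K₂ (by omega))
  have b2 := Ed_le (κ := K₁) h5
  have b3 := Ed_le (κ := K₂) h5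
  rw [← hK₂] at b2
  rw [← hK₃] at b3
  have b1 : (t * (4 * t)) ^ 2 * t + t + 1 ≤ t ^ K₁ := by
    have h1 : t ≤ t ^ 5 := by
      calc t = t ^ 1 := (pow_one t).symm
        _ ≤ t ^ 5 := hpm (by norm_num)
    calc (t * (4 * t)) ^ 2 * t + t + 1 = 16 * t ^ 5 + t + 1 := by ring
      _ ≤ 16 * t ^ 5 + t ^ 5 + t ^ 5 := by omega
      _ = 18 * t ^ 5 := by ring
      _ ≤ t * t ^ 5 := Nat.mul_le_mul_right _ (by omega)
      _ = t ^ 6 := by ring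
      _ ≤ t ^ K₁ := hpm (by omega)
  have Pa : Pm α β ((8 : ℝ) ^ t) (t * (4 * t)) (t ^ K₁) (256 * t) (Ed t K₁) (t ^ K₂)
      (256 * t) (Ed t K₂) ((t ^ K₁ : ℕ) : ℝ) ((t ^ K₂ : ℕ) : ℝ) ((t ^ K₃ : ℕ) : ℝ)
      (2 ^ t / 2) := by
    refine ⟨Z.sz, F₁, F₂, le_rfl, le_rfl, ?_, ?_, ?_⟩
    · exact_mod_cast hpm (by omega)
    · exact_mod_cast hpm (by omega)
    · have h1 : 4 * (t ^ K₃ * t ^ K₃) ≤ 2 ^ t := by
        calc 4 * (t ^ K₃ * t ^ K₃) ≤ t * (t ^ K₃ * t ^ K₃) := Nat.mul_le_mul_right _ (by omega)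
          _ = t ^ (2 * K₃ + 1) := by ring
          _ ≤ 2 ^ t := hP
      have h2 : (4 : ℝ) * (((t ^ K₃ : ℕ) : ℝ) * ((t ^ K₃ : ℕ) : ℝ)) ≤ 2 ^ t := by exact_mod_cast h1
      linarith
  have hen : ∀ n : ℕ, 2 ≤ n → Real.log n ≤ ℓ → (Real.log n ≤ x ^ K ∨ ∃ k, (n : ℤ) = lucV P Q k) →
      En P Q ((8 : ℝ) ^ t) (t * (4 * t)) (Ed t K₁) (Ed t K₂) ((t ^ K₁ : ℕ) : ℝ) ((t ^ K₂ : ℕ) : ℝ)
        ((t ^ K₃ : ℕ) : ℝ) n := by
    intro n hn hnℓ hor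
    rcases hor with h | ⟨k, hk⟩
    · have h1 : x ^ K ≤ ((t ^ K₁ : ℕ) : ℝ) := hxK.trans (by exact_mod_cast hpm (by omega))
      refine ⟨hn, Or.inl (h.trans h1), Or.inl (h.trans (h1.trans Pa.h12)),
        Or.inl (h.trans (h1.trans (Pa.h12.trans Pa.h23)))⟩
    · have hkm := k_le R Z hk (hnℓ.trans hℓe)
      have key : ∀ (E κ : ℕ), E * t + t + 1 ≤ t ^ κ →
          Real.log n ≤ ((t ^ κ : ℕ) : ℝ) ∨ IsV P Q ((8 : ℝ) ^ t) E n := by
        intro E κ hE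
        rcases le_or_gt (Real.log n) ((t ^ κ : ℕ) : ℝ) with h1 | h1
        · exact Or.inl h1
        · exact Or.inr ⟨k, hk, k_ge R Z hn hk hE h1, hkm⟩
      exact ⟨hn, key _ _ b1, key _ _ b2, key _ _ b3⟩
  refine asm R Pa (hen a ha2 ha na) (hen b hb2 hb nb) (hen c hc2 hc nc) (hen d hd2 hd nd) ?_ heq
  rcases hmax with h | h | h | h
  · left; rw [h]; exact hℓ2
  · right; left; rw [h]; exact hℓ2
  · right; right; left; rw [h]; exact hℓ2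
  · right; right; right; rw [h]; exact hℓ2

end

end Pool.Agent.K4H73.LU
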